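import Mathlib

/-!
# Exact (1-cross intersecting) set pair systems: restrictions and weights
-/

set_option autoImplicit false
set_option linter.unusedSectionVars false
set_option linter.unusedSimpArgs false

namespace Pool.Agent.Cross1

open Finset

/-- A finite family of pairs `(A i, B i)`, `i ∈ I`, of finite sets. -/
structure Sys (ι X : Type*) where
  /-- the index set -/
  I : Finset ι
  /-- the first sets -/
  A : ι → Finset X
  /-- the second sets -/
  B : ι → Finset X

variable {ι X : Type*} [DecidableEq X]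

/-- The system is 1-cross intersecting. -/
def Exact (S : Sys ι X) : Prop :=
  (∀ i ∈ S.I, Disjoint (S.A i) (S.B i)) ∧
    ∀ i ∈ S.I, ∀ k ∈ S.I, i ≠ k → (S.A i ∩ S.B k).card = 1

/-- The total size. -/
def size (S : Sys ι X) : ℕ := ∑ i ∈ S.I, (1 + (S.A i).card + (S.B i).card)

/-- The weight of an index. -/
noncomputable def om (θ : ℝ) (S : Sys ι X) (i : ι) : ℝ := θ ^ ((S.A i).card + (S.B i).card)

/-- Weighted sum of a function. -/
noncomputable def E (θ : ℝ) (S : Sys ι X) (f : ι → ℝ) : ℝ := ∑ i ∈ S.I, om θ S i * f i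

/-- Total weight. -/
noncomputable def W (θ : ℝ) (S : Sys ι X) : ℝ := ∑ i ∈ S.I, om θ S i

/-- Indicator of `x ∈ A i`. -/
noncomputable def ia (S : Sys ι X) (x : X) (i : ι) : ℝ := if x ∈ S.A i then 1 else 0

/-- Indicator of `x ∈ B i`. -/
noncomputable def ib (S : Sys ι X) (x : X) (i : ι) : ℝ := if x ∈ S.B i then 1 else 0

/-- Weight of the indices with `x ∈ A i`. -/
noncomputable def U (θ : ℝ) (S : Sys ι X) (x : X) : ℝ := E θ S (ia S x)

/-- Weight of the indices with `x ∈ B i`. -/
noncomputable def V (θ : ℝ) (S : Sys ι X) (x : X) : ℝ := E θ S (ib S x)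

/-- Restriction: the elements of `P` are put in, those of `Q` are put out. -/
def res (S : Sys ι X) (P Q : Finset X) : Sys ι X where
  I := S.I.filter fun i => Disjoint (S.B i) P ∧ Disjoint (S.A i) Q
  A := fun i => S.A i \ P
  B := fun i => S.B i \ Q

/-- Exchange the roles of the first and second sets. -/
def dual (S : Sys ι X) : Sys ι X := ⟨S.I, S.B, S.A⟩

omit [DecidableEq X] in
theorem om_dual (θ : ℝ) (S : Sys ι X) (i : ι) : om θ (dual S) i = om θ S i := by
  simp only [om, dual, add_comm]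

omit [DecidableEq X] in
theorem E_dual (θ : ℝ) (S : Sys ι X) (f : ι → ℝ) : E θ (dual S) f = E θ S f := by
  unfold E
  simp only [om_dual]
  rfl

omit [DecidableEq X] in
theorem W_dual (θ : ℝ) (S : Sys ι X) : W θ (dual S) = W θ S := by
  unfold W
  simp only [om_dual]
  rfl

theorem ia_dual (S : Sys ι X) (x : X) : ia (dual S) x = ib S x := rfl

theorem ib_dual (S : Sys ι X) (x : X) : ib (dual S) x = ia S x := rfl

theorem U_dual (θ : ℝ) (S : Sys ι X) (x : X) : U θ (dual S) x = V θ S x := by
  unfold U V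
  rw [E_dual, ia_dual]

theorem V_dual (θ : ℝ) (S : Sys ι X) (x : X) : V θ (dual S) x = U θ S x := by
  unfold U V
  rw [E_dual, ib_dual]

theorem exact_dual {S : Sys ι X} (h : Exact S) : Exact (dual S) :=
  ⟨fun i hi => (h.1 i hi).symm, fun i hi k hk hik => by
    have := h.2 k hk i hi (Ne.symm hik)
    rw [inter_comm] at this
    exact this⟩

omit [DecidableEq X] in
theorem size_dual (S : Sys ι X) : size (dual S) = size S := by
  unfold size
  refine sum_congr rfl fun i _ => ?_
  simp only [dual]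
  omega

theorem res_dual (S : Sys ι X) (P Q : Finset X) : res (dual S) P Q = dual (res S Q P) := by
  unfold res dual
  simp only [Sys.mk.injEq, and_true, true_and]
  ext i
  simp only [mem_filter]
  tauto

theorem exact_res {S : Sys ι X} (h : Exact S) (P Q : Finset X) : Exact (res S P Q) := by
  constructor
  · intro i hi
    simp only [res, mem_filter] at hi ⊢
    exact (h.1 i hi.1).mono sdiff_subset sdiff_subset
  · intro i hi k hk hik
    simp only [res, mem_filter] at hi hk ⊢
    have h1 := h.2 i hi.1 k hk.1 hik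
    have h2 : (S.A i \ P) ∩ (S.B k \ Q) = S.A i ∩ S.B k := by
      ext x
      simp only [mem_inter, mem_sdiff]
      constructor
      · tauto
      · rintro ⟨ha, hb⟩
        exact ⟨⟨ha, disjoint_left.1 hk.2.1 hb⟩, ⟨hb, disjoint_left.1 hi.2.2 ha⟩⟩
    rw [h2, h1]

theorem om_res {θ : ℝ} (hθ : 0 < θ) (S : Sys ι X) (P Q : Finset X) (i : ι) :
    om θ (res S P Q) i = om θ S i * θ⁻¹ ^ ((S.A i ∩ P).card + (S.B i ∩ Q).card) := by
  have h1 : (S.A i \ P).card + (S.A i ∩ P).card = (S.A i).card := card_sdiff_add_card_inter _ _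
  have h2 : (S.B i \ Q).card + (S.B i ∩ Q).card = (S.B i).card := card_sdiff_add_card_inter _ _
  have h3 : (S.A i).card + (S.B i).card =
      ((S.A i \ P).card + (S.B i \ Q).card) + ((S.A i ∩ P).card + (S.B i ∩ Q).card) := by omega
  have h4 : om θ (res S P Q) i = θ ^ ((S.A i \ P).card + (S.B i \ Q).card) := rfl
  have h5 : om θ S i = θ ^ ((S.A i).card + (S.B i).card) := rfl
  rw [h4, h5, h3, pow_add θ ((S.A i \ P).card + (S.B i \ Q).card), mul_assoc, ← mul_pow,
    mul_inv_cancel₀ hθ.ne', one_pow, mul_one]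

/-- A restriction which touches something has smaller size. -/
theorem size_res_lt {S : Sys ι X} {P Q : Finset X} {i : ι} (hi : i ∈ S.I) {x : X}
    (hx : x ∈ P ∪ Q) (hxi : x ∈ S.A i ∪ S.B i) : size (res S P Q) < size S := by
  have h1 : size (res S P Q) = ∑ j ∈ S.I, if Disjoint (S.B j) P ∧ Disjoint (S.A j) Q then
      (1 + (S.A j \ P).card + (S.B j \ Q).card) else 0 := by
    unfold size
    rw [← sum_filter]
    rfl
  rw [h1]
  unfold size
  refine sum_lt_sum (fun j _ => ?_) ⟨i, hi, ?_⟩
  · split_ifs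
    · have a1 : (S.A j \ P).card ≤ (S.A j).card := card_le_card sdiff_subset
      have a2 : (S.B j \ Q).card ≤ (S.B j).card := card_le_card sdiff_subset
      omega
    · exact Nat.zero_le _
  · split_ifs with hd
    · have a1 : (S.A i \ P).card ≤ (S.A i).card := card_le_card sdiff_subset
      have a2 : (S.B i \ Q).card ≤ (S.B i).card := card_le_card sdiff_subset
      rcases mem_union.1 hxi with hA | hB
      · have hP : x ∈ P := by
          rcases mem_union.1 hx with h | h
          · exact h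
          · exact absurd h (disjoint_left.1 hd.2 hA)
        have a3 : (S.A i \ P).card < (S.A i).card := by
          apply card_lt_card
          refine ⟨sdiff_subset, fun hs => ?_⟩
          exact (mem_sdiff.1 (hs hA)).2 hP
        omega
      · have hQ : x ∈ Q := by
          rcases mem_union.1 hx with h | h
          · exact absurd h (disjoint_left.1 hd.1 hB)
          · exact h
        have a3 : (S.B i \ Q).card < (S.B i).card := by
          apply card_lt_card
          refine ⟨sdiff_subset, fun hs => ?_⟩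
          exact (mem_sdiff.1 (hs hB)).2 hQ
        omega
    · omega

theorem E_res_in {θ : ℝ} (hθ : 0 < θ) {S : Sys ι X} (h : Exact S) (y : X) (f : ι → ℝ) :
    E θ (res S {y} ∅) f = E θ S fun i => f i * (1 - ib S y i + (θ⁻¹ - 1) * ia S y i) := by
  have h1 : E θ (res S {y} ∅) f =
      ∑ i ∈ S.I, if y ∉ S.B i then om θ (res S {y} ∅) i * f i else 0 := by
    unfold E
    rw [← sum_filter]
    refine sum_congr ?_ fun _ _ => rfl
    simp only [res, disjoint_singleton_right, disjoint_empty_right, and_true]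
  rw [h1]
  unfold E
  refine sum_congr rfl fun i hi => ?_
  rw [om_res hθ]
  by_cases hB : y ∈ S.B i
  · have hA : y ∉ S.A i := disjoint_right.1 (h.1 i hi) hB
    simp [hB, hA, ia, ib]
  · by_cases hA : y ∈ S.A i
    · have : (S.A i ∩ {y}).card = 1 := by rw [inter_singleton_of_mem hA, card_singleton]
      simp only [hB, not_false_eq_true, if_true, this, inter_empty, card_empty, add_zero, pow_one,
        ib, if_false, ia, hA]
      ring
    · have : (S.A i ∩ {y}).card = 0 := by rw [inter_singleton_of_notMem hA, card_empty]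
      simp only [hB, not_false_eq_true, if_true, this, inter_empty, card_empty, add_zero, pow_zero,
        ib, if_false, ia, hA]
      ring

theorem E_res_out {θ : ℝ} (hθ : 0 < θ) {S : Sys ι X} (h : Exact S) (y : X) (f : ι → ℝ) :
    E θ (res S ∅ {y}) f = E θ S fun i => f i * (1 - ia S y i + (θ⁻¹ - 1) * ib S y i) := by
  have h1 := E_res_in hθ (exact_dual h) y f
  rw [res_dual, E_dual, E_dual, ia_dual, ib_dual] at h1
  exact h1

theorem W_eq_E (θ : ℝ) (S : Sys ι X) : W θ S = E θ S fun _ => 1 := by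
  simp [W, E]

theorem E_add (θ : ℝ) (S : Sys ι X) (f g : ι → ℝ) :
    E θ S (fun i => f i + g i) = E θ S f + E θ S g := by
  unfold E
  rw [← sum_add_distrib]
  exact sum_congr rfl fun i _ => by ring

theorem E_sub (θ : ℝ) (S : Sys ι X) (f g : ι → ℝ) :
    E θ S (fun i => f i - g i) = E θ S f - E θ S g := by
  unfold E
  rw [← sum_sub_distrib]
  exact sum_congr rfl fun i _ => by ring

theorem E_mul_left (θ : ℝ) (S : Sys ι X) (c : ℝ) (f : ι → ℝ) :
    E θ S (fun i => c * f i) = c * E θ S f := by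
  unfold E
  rw [mul_sum]
  exact sum_congr rfl fun i _ => by ring

theorem om_pos {θ : ℝ} (hθ : 0 < θ) (S : Sys ι X) (i : ι) : 0 < om θ S i := pow_pos hθ _

theorem E_mono {θ : ℝ} (hθ : 0 < θ) (S : Sys ι X) {f g : ι → ℝ} (h : ∀ i ∈ S.I, f i ≤ g i) :
    E θ S f ≤ E θ S g :=
  sum_le_sum fun i hi => mul_le_mul_of_nonneg_left (h i hi) (om_pos hθ S i).le

theorem E_nonneg {θ : ℝ} (hθ : 0 < θ) (S : Sys ι X) {f : ι → ℝ} (h : ∀ i ∈ S.I, 0 ≤ f i) :
    0 ≤ E θ S f :=
  sum_nonneg fun i hi => mul_nonneg (om_pos hθ S i).le (h i hi)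

theorem E_congr {θ : ℝ} {S : Sys ι X} {f g : ι → ℝ} (h : ∀ i ∈ S.I, f i = g i) :
    E θ S f = E θ S g :=
  sum_congr rfl fun i hi => by rw [h i hi]

theorem ia_nonneg (S : Sys ι X) (x : X) (i : ι) : 0 ≤ ia S x i := by
  unfold ia; split_ifs <;> norm_num

theorem ib_nonneg (S : Sys ι X) (x : X) (i : ι) : 0 ≤ ib S x i := by
  unfold ib; split_ifs <;> norm_num

theorem ia_le_one (S : Sys ι X) (x : X) (i : ι) : ia S x i ≤ 1 := by
  unfold ia; split_ifs <;> norm_num

theorem ib_le_one (S : Sys ι X) (x : X) (i : ι) : ib S x i ≤ 1 := by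
  unfold ib; split_ifs <;> norm_num

theorem U_nonneg {θ : ℝ} (hθ : 0 < θ) (S : Sys ι X) (x : X) : 0 ≤ U θ S x :=
  E_nonneg hθ S fun i _ => ia_nonneg S x i

theorem V_nonneg {θ : ℝ} (hθ : 0 < θ) (S : Sys ι X) (x : X) : 0 ≤ V θ S x :=
  E_nonneg hθ S fun i _ => ib_nonneg S x i

theorem W_in {θ : ℝ} (hθ : 0 < θ) {S : Sys ι X} (h : Exact S) (y : X) :
    W θ (res S {y} ∅) = W θ S - V θ S y + (θ⁻¹ - 1) * U θ S y := by
  rw [W_eq_E, E_res_in hθ h, W_eq_E, U, V, ← E_mul_left, ← E_sub, ← E_add]
  exact E_congr fun i _ => by ring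

theorem W_out {θ : ℝ} (hθ : 0 < θ) {S : Sys ι X} (h : Exact S) (y : X) :
    W θ (res S ∅ {y}) = W θ S - U θ S y + (θ⁻¹ - 1) * V θ S y := by
  rw [W_eq_E, E_res_out hθ h, W_eq_E, U, V, ← E_mul_left, ← E_sub, ← E_add]
  exact E_congr fun i _ => by ring

/-- All systems of size smaller than `N` have weight at most one. -/
def Hyp (ι X : Type*) [DecidableEq X] (θ : ℝ) (N : ℕ) : Prop :=
  ∀ S : Sys ι X, Exact S → size S < N → W θ S ≤ 1

/-- An element is touched when it lies in one of the sets. -/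
def Touched (S : Sys ι X) (x : X) : Prop := ∃ i ∈ S.I, x ∈ S.A i ∪ S.B i

theorem touched_dual {S : Sys ι X} {x : X} (h : Touched S x) : Touched (dual S) x := by
  obtain ⟨i, hi, hx⟩ := h
  exact ⟨i, hi, by rw [union_comm]; exact hx⟩

theorem res_le_one {θ : ℝ} {N : ℕ} (hyp : Hyp ι X θ N) {S : Sys ι X} (h : Exact S)
    (hS : size S ≤ N) {P Q : Finset X} {x : X} (hx : x ∈ P ∪ Q) (ht : Touched S x) :
    W θ (res S P Q) ≤ 1 := by
  obtain ⟨i, hi, hxi⟩ := ht
  exact hyp _ (exact_res h P Q) (lt_of_lt_of_le (size_res_lt hi hx hxi) hS)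

theorem touched_of_U_pos {θ : ℝ} {S : Sys ι X} {x : X} (h : 0 < U θ S x) : Touched S x := by
  by_contra hn
  have : U θ S x = 0 := by
    unfold U E
    refine sum_eq_zero fun i hi => ?_
    have : x ∉ S.A i := fun hx => hn ⟨i, hi, mem_union_left _ hx⟩
    simp [ia, this]
  linarith

theorem touched_of_V_pos {θ : ℝ} {S : Sys ι X} {x : X} (h : 0 < V θ S x) : Touched S x := by
  rw [← U_dual] at h
  exact touched_dual (touched_of_U_pos h)

end Pool.Agent.Cross1
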