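import Pool.Agent.Cross1.Main

/-!
# 1-cross intersecting set pair systems have size at most `c ^ n` with `c < 4`

The growth rate `λ = lim m_n ^ (1/n)` of the maximum size `m_n` of an `(n,n)`-restricted 1-cross
intersecting set pair system is smaller than `4`: Bollobás' bound `m_n ≤ (2n choose n)` is not
sharp up to subexponential factors.
-/

set_option autoImplicit false

universe u

namespace Pool.Agent.Cross1.GrowthBelowFour

open Finset Pool.Agent.Cross1

/-- `(A i, B i)`, `i < m`, is a 1-cross intersecting set pair system. -/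
structure OneCross {X : Type u} [DecidableEq X] (m : ℕ) (A B : Fin m → Finset X) : Prop where
  /-- `A i` and `B i` are disjoint -/
  disj : ∀ i, Disjoint (A i) (B i)
  /-- `A i` and `B j` have exactly one common element when `i ≠ j` -/
  one : ∀ i j, i ≠ j → (A i ∩ B j).card = 1

/-- There is a constant `c < 4` such that every 1-cross intersecting set pair system satisfies
`∑ i, c ^ (-(|A i| + |B i|) / 2) ≤ 1`; in particular an `(n, n)`-restricted one has size at most
`c ^ n`. -/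
theorem result : ∃ c : ℝ, 0 < c ∧ c < 4 ∧
    ∀ (X : Type u) [DecidableEq X] (m : ℕ) (A B : Fin m → Finset X), OneCross m A B →
      ∑ i, (√c)⁻¹ ^ ((A i).card + (B i).card) ≤ 1 ∧
      ∀ n : ℕ, (∀ i, (A i).card ≤ n ∧ (B i).card ≤ n) → (m : ℝ) ≤ c ^ n := by
  obtain ⟨θ, hθ, hθ1, hmain⟩ := exists_theta.{0, u}
  have hθ0 : 0 < θ := by linarith
  have hinv : θ⁻¹ < 2 := by
    rw [inv_lt_comm₀ hθ0 (by norm_num)]
    linarith
  have hinv0 : 0 < θ⁻¹ := inv_pos.2 hθ0
  have hsqrt : √(θ⁻¹ ^ 2) = θ⁻¹ := Real.sqrt_sq hinv0.le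
  refine ⟨θ⁻¹ ^ 2, by positivity, by nlinarith, ?_⟩
  intro X _ m A B h
  rw [hsqrt, inv_inv]
  have hex : Exact (⟨univ, A, B⟩ : Sys (Fin m) X) :=
    ⟨fun i _ => h.disj i, fun i _ k _ hik => h.one i k hik⟩
  have hW := hmain (⟨univ, A, B⟩ : Sys (Fin m) X) hex
  have hW' : ∑ i, θ ^ ((A i).card + (B i).card) ≤ 1 := hW
  refine ⟨hW', fun n hn => ?_⟩
  have h1 : (m : ℝ) * θ ^ (2 * n) ≤ 1 := by
    calc (m : ℝ) * θ ^ (2 * n) = ∑ _i : Fin m, θ ^ (2 * n) := by
          rw [sum_const, card_univ, Fintype.card_fin, nsmul_eq_mul]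
      _ ≤ ∑ i, θ ^ ((A i).card + (B i).card) := by
          refine sum_le_sum fun i _ => ?_
          have := hn i
          exact pow_le_pow_of_le_one hθ0.le hθ1.le (by omega)
      _ ≤ 1 := hW'
  have h2 : (θ⁻¹ ^ 2) ^ n = (θ ^ (2 * n))⁻¹ := by
    rw [← pow_mul, inv_pow]
  rw [h2, ← one_div, le_div_iff₀ (by positivity)]
  exact h1

end Pool.Agent.Cross1.GrowthBelowFour
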