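import Pool.Agent.Cross1.Increase

/-!
# Existence of a heavy element
-/

set_option autoImplicit false
set_option linter.unusedSectionVars false
set_option linter.unusedSimpArgs false

namespace Pool.Agent.Cross1

open Finset

variable {ι X : Type*} [DecidableEq X] {θ : ℝ} {N : ℕ} {S : Sys ι X}

theorem pow_tail {a b k : ℕ} {α β : ℝ} (hα : 15 / 11 ≤ α) (hβ : 5 / 11 ≤ β) (hab : 4 * b ≤ a)
    (hk : 8 * k ≤ a) : (2 : ℝ) ^ k ≤ α ^ a * β ^ b := by
  have hα0 : 0 < α := by linarith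
  have hβ0 : 0 < β := by linarith
  have h1 : ((11 : ℝ) / 10) ^ 4 ≤ α ^ 4 * β := by
    have a1 : ((15 : ℝ) / 11) ^ 4 ≤ α ^ 4 := pow_le_pow_left₀ (by norm_num) hα 4
    have a2 : ((15 : ℝ) / 11) ^ 4 * (5 / 11) ≤ α ^ 4 * β :=
      mul_le_mul a1 hβ (by norm_num) (by positivity)
    refine le_trans ?_ a2
    norm_num
  have h2 : α ^ a * β ^ b = α ^ (a - 4 * b) * (α ^ 4 * β) ^ b := by
    rw [mul_pow, ← pow_mul, ← mul_assoc, ← pow_add]
    congr 2
    omega
  have h3 : ((11 : ℝ) / 10) ^ a = (11 / 10) ^ (a - 4 * b) * ((11 / 10) ^ 4) ^ b := by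
    rw [← pow_mul, ← pow_add]
    congr 1
    omega
  have h4 : ((11 : ℝ) / 10) ^ a ≤ α ^ a * β ^ b := by
    rw [h2, h3]
    refine mul_le_mul (pow_le_pow_left₀ (by norm_num) (by linarith) _)
      (pow_le_pow_left₀ (by norm_num) h1 _) (by positivity) (by positivity)
  refine le_trans ?_ h4
  calc (2 : ℝ) ^ k ≤ ((11 / 10) ^ 8) ^ k := pow_le_pow_left₀ (by norm_num) (by norm_num) k
    _ = (11 / 10) ^ (8 * k) := by rw [← pow_mul]
    _ ≤ (11 / 10) ^ a := pow_le_pow_right₀ (by norm_num) hk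

/-- First tail bound: many elements of `A i` and few of `B i` on `H`. -/
theorem tailA (hθ : 1 / 2 < θ) (hθ' : θ ≤ 11 / 20) (hyp : Hyp ι X θ N) (h : Exact S)
    (hS : size S ≤ N) (H : Finset X) {k : ℕ} (hk : 1 ≤ k) :
    ∑ i ∈ S.I.filter (fun i => 8 * k ≤ (S.A i ∩ H).card ∧ 4 * (S.B i ∩ H).card ≤ (S.A i ∩ H).card),
      om θ S i ≤ (1 / 2) ^ k := by
  have hθ0 : 0 < θ := by linarith
  set J := S.I.filter (fun i => 8 * k ≤ (S.A i ∩ H).card ∧
    4 * (S.B i ∩ H).card ≤ (S.A i ∩ H).card) with hJ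
  rcases J.eq_empty_or_nonempty with h0 | ⟨i0, hi0⟩
  · rw [h0, sum_empty]
    positivity
  have hi0' := mem_filter.1 hi0
  have hne : (S.A i0 ∩ H).Nonempty := by
    rw [← card_pos]
    omega
  obtain ⟨y, hy⟩ := hne
  have hyA := (mem_inter.1 hy).1
  have hyH := (mem_inter.1 hy).2
  have hZ := Zp_le_one (p := 1 / 4) hθ0 (by norm_num) (by norm_num) hyp h hS hyH
    ⟨i0, hi0'.1, mem_union_left _ hyA⟩
  have hα : 15 / 11 ≤ (1 - 1 / 4) / θ := by
    rw [le_div_iff₀ hθ0]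
    linarith
  have hβ : 5 / 11 ≤ 1 / 4 / θ := by
    rw [le_div_iff₀ hθ0]
    linarith
  have h1 : ∑ i ∈ J, om θ S i * 2 ^ k ≤ Zp θ (1 / 4) S H := by
    unfold Zp E
    calc ∑ i ∈ J, om θ S i * 2 ^ k ≤ ∑ i ∈ J, om θ S i *
          (((1 - 1 / 4) / θ) ^ (S.A i ∩ H).card * (1 / 4 / θ) ^ (S.B i ∩ H).card) := by
          refine sum_le_sum fun i hi => ?_
          have hi' := (mem_filter.1 hi).2
          exact mul_le_mul_of_nonneg_left (pow_tail hα hβ hi'.2 hi'.1) (om_pos hθ0 S i).le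
      _ ≤ _ := by
          refine sum_le_sum_of_subset_of_nonneg (filter_subset _ _) fun i _ _ => ?_
          have := om_pos hθ0 S i
          have e1 : 0 < (1 - 1 / 4) / θ := by linarith
          have e2 : 0 < 1 / 4 / θ := by linarith
          positivity
  rw [← sum_mul] at h1
  have h2 : (0 : ℝ) < 2 ^ k := by positivity
  rw [one_div, inv_pow, ← one_div, le_div_iff₀ h2]
  linarith

theorem tail_announce (hθ : 1 / 2 < θ) (hθ' : θ ≤ 11 / 20) (hyp : Hyp ι X θ N) (h : Exact S)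
    (hS : size S ≤ N) (x : X) (k : ℕ) :
    E θ S (fun i => ia S x i * if k ≤ (Fs S x i).card then 1 else 0) ≤ (11 / 20) ^ k := by
  have hθ0 : 0 < θ := by linarith
  have hinv : 1 ≤ θ⁻¹ := (one_le_inv₀ hθ0).2 (by linarith)
  have h1 := announce hθ0 (by linarith) hyp h hS x
  have h2 : θ⁻¹ ^ k * E θ S (fun i => ia S x i * if k ≤ (Fs S x i).card then 1 else 0) ≤ 1 := by
    rw [← E_mul_left]
    refine le_trans (E_mono hθ0 S fun i _ => ?_) h1
    have ha := ia_nonneg S x i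
    split_ifs with hk
    · have : θ⁻¹ ^ k ≤ θ⁻¹ ^ (1 + (Fs S x i).card) := pow_le_pow_right₀ hinv (by omega)
      nlinarith
    · have : 0 ≤ θ⁻¹ ^ (1 + (Fs S x i).card) := by positivity
      rw [mul_zero, mul_zero]
      exact mul_nonneg ha this
  have h3 : E θ S (fun i => ia S x i * if k ≤ (Fs S x i).card then 1 else 0) ≤ θ ^ k := by
    rw [inv_pow, inv_mul_le_iff₀ (by positivity), mul_one] at h2
    exact h2
  exact h3.trans (pow_le_pow_left₀ hθ0.le hθ' k)

theorem pair_count (h : Exact S) {i : ι} (hi : i ∈ S.I) (H : Finset X) {k : ℕ}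
    (ha : 2 * k < (S.A i ∩ H).card) (hb : 2 * k < (S.B i ∩ H).card) :
    (∃ x ∈ S.A i ∩ H, k ≤ (Fs S x i).card) ∨ ∃ y ∈ S.B i ∩ H, k ≤ (Fs (dual S) y i).card := by
  by_contra hcon
  push Not at hcon
  obtain ⟨h1, h2⟩ := hcon
  have h3 : (S.A i ∩ H).card * (S.B i ∩ H).card ≤
      ∑ x ∈ S.A i ∩ H, (Fs S x i).card + ∑ y ∈ S.B i ∩ H, (Fs (dual S) y i).card := by
    have e1 : (S.A i ∩ H).card * (S.B i ∩ H).card =
        ∑ x ∈ S.A i ∩ H, ∑ y ∈ S.B i ∩ H, 1 := by
      simp only [sum_const, smul_eq_mul, mul_one]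
    have e2 : ∑ x ∈ S.A i ∩ H, ∑ y ∈ S.B i ∩ H, 1 ≤ ∑ x ∈ S.A i ∩ H, ∑ y ∈ S.B i ∩ H,
        ((if y ∈ Fs S x i then 1 else 0) + if x ∈ Fs (dual S) y i then 1 else 0) := by
      refine sum_le_sum fun x hx => sum_le_sum fun y hy => ?_
      rcases pair_dichotomy h hi (mem_inter.1 hx).1 (mem_inter.1 hy).1 with hh | hh <;> simp [hh]
    rw [e1]
    refine e2.trans ?_
    simp only [sum_add_distrib]
    refine add_le_add (sum_le_sum fun x _ => ?_) ?_
    · rw [sum_ite_mem, sum_const, smul_eq_mul, mul_one]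
      exact card_le_card inter_subset_right
    · rw [sum_comm]
      refine sum_le_sum fun y _ => ?_
      rw [sum_ite_mem, sum_const, smul_eq_mul, mul_one]
      exact card_le_card inter_subset_right
  have h4 : ∑ x ∈ S.A i ∩ H, (Fs S x i).card ≤ (S.A i ∩ H).card * k := by
    rw [← smul_eq_mul, ← sum_const]
    exact sum_le_sum fun x hx => (h1 x hx).le
  have h5 : ∑ y ∈ S.B i ∩ H, (Fs (dual S) y i).card ≤ (S.B i ∩ H).card * k := by
    rw [← smul_eq_mul, ← sum_const]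
    exact sum_le_sum fun y hy => (h2 y hy).le
  have h6 := h3.trans (add_le_add h4 h5)
  nlinarith

/-- Second tail bound: many elements of both sets on `H`. -/
theorem tailB (hθ : 1 / 2 < θ) (hθ' : θ ≤ 11 / 20) (hyp : Hyp ι X θ N) (h : Exact S)
    (hS : size S ≤ N) (H : Finset X) (k : ℕ) :
    ∑ i ∈ S.I.filter (fun i => 2 * k < (S.A i ∩ H).card ∧ 2 * k < (S.B i ∩ H).card),
      om θ S i ≤ 2 * (H.card : ℝ) * (11 / 20) ^ k := by
  have hθ0 : 0 < θ := by linarith
  set J := S.I.filter (fun i => 2 * k < (S.A i ∩ H).card ∧ 2 * k < (S.B i ∩ H).card) with hJ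
  have h1 : ∀ i ∈ J, (1 : ℝ) ≤ ∑ x ∈ H, ((ia S x i * if k ≤ (Fs S x i).card then 1 else 0) +
      (ib S x i * if k ≤ (Fs (dual S) x i).card then 1 else 0)) := by
    intro i hi
    have hi' := mem_filter.1 hi
    have hnn : ∀ x ∈ H, (0 : ℝ) ≤ (ia S x i * if k ≤ (Fs S x i).card then 1 else 0) +
        (ib S x i * if k ≤ (Fs (dual S) x i).card then 1 else 0) := by
      intro x _
      have a1 := ia_nonneg S x i
      have a2 := ib_nonneg S x i
      split_ifs <;> linarith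
    rcases pair_count h hi'.1 H hi'.2.1 hi'.2.2 with ⟨x, hx, hk⟩ | ⟨x, hx, hk⟩
    · refine le_trans ?_ (single_le_sum hnn (mem_inter.1 hx).2)
      have a2 := ib_nonneg S x i
      have a1 : ia S x i = 1 := by simp [ia, (mem_inter.1 hx).1]
      rw [if_pos hk, a1]
      split_ifs <;> linarith
    · refine le_trans ?_ (single_le_sum hnn (mem_inter.1 hx).2)
      have a2 := ia_nonneg S x i
      have a1 : ib S x i = 1 := by simp [ib, (mem_inter.1 hx).1]
      rw [if_pos hk, a1]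
      split_ifs <;> linarith
  calc ∑ i ∈ J, om θ S i ≤ ∑ i ∈ J, om θ S i *
        ∑ x ∈ H, ((ia S x i * if k ≤ (Fs S x i).card then 1 else 0) +
          (ib S x i * if k ≤ (Fs (dual S) x i).card then 1 else 0)) := by
        refine sum_le_sum fun i hi => ?_
        have a1 := om_pos hθ0 S i
        have a2 := h1 i hi
        nlinarith
    _ ≤ ∑ i ∈ S.I, om θ S i *
        ∑ x ∈ H, ((ia S x i * if k ≤ (Fs S x i).card then 1 else 0) +
          (ib S x i * if k ≤ (Fs (dual S) x i).card then 1 else 0)) := by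
        refine sum_le_sum_of_subset_of_nonneg (filter_subset _ _) fun i _ _ => ?_
        refine mul_nonneg (om_pos hθ0 S i).le (sum_nonneg fun x _ => ?_)
        have a1 := ia_nonneg S x i
        have a2 := ib_nonneg S x i
        split_ifs <;> linarith
    _ = ∑ x ∈ H, (E θ S (fun i => ia S x i * if k ≤ (Fs S x i).card then 1 else 0) +
          E θ S (fun i => ib S x i * if k ≤ (Fs (dual S) x i).card then 1 else 0)) := by
        unfold E
        simp only [← sum_add_distrib, mul_sum]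
        rw [sum_comm]
        refine sum_congr rfl fun x _ => sum_congr rfl fun i _ => by ring
    _ ≤ ∑ _x ∈ H, ((11 / 20) ^ k + (11 / 20) ^ k) := by
        refine sum_le_sum fun x _ => add_le_add (tail_announce hθ hθ' hyp h hS x k) ?_
        have := tail_announce hθ hθ' hyp (exact_dual h) (by rw [size_dual]; exact hS) x k
        rw [E_dual, ia_dual] at this
        exact this
    _ = 2 * (H.card : ℝ) * (11 / 20) ^ k := by
        rw [sum_const, nsmul_eq_mul]
        ring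

/-- The elements of weight at least `2 ^ (-m)`. -/
noncomputable def Hm (θ : ℝ) (S : Sys ι X) (m : ℕ) : Finset X :=
  (G S).filter fun x => (1 / 2 : ℝ) ^ m ≤ U θ S x

theorem bad_weight (hθ : 1 / 2 < θ) (hθ' : θ ≤ 11 / 20) (hyp : Hyp ι X θ N) (h : Exact S)
    (hS : size S ≤ N) (hW : 1 ≤ W θ S) {m : ℕ} (hm : 1 ≤ m) :
    ∑ i ∈ S.I.filter (fun i => 32 * m ≤ (S.A i ∩ Hm θ S m).card), om θ S i ≤
      17 * (2 / 5) ^ m := by
  have hθ0 : 0 < θ := by linarith
  have h1 := tailA hθ hθ' hyp h hS (Hm θ S m) (k := 4 * m) (by omega)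
  have h2 := tailB hθ hθ' hyp h hS (Hm θ S m) (4 * m)
  have hcard : ((Hm θ S m).card : ℝ) ≤ 8 * 4 ^ m := by
    have := card_heavy (δ := 0) hθ hθ' hyp h hS (η := (1 / 2) ^ m) (by positivity) le_rfl
      (by positivity) (by linarith) (Hm θ S m) (filter_subset _ _)
      (fun y hy => (mem_filter.1 hy).2)
    refine this.trans (le_of_eq ?_)
    rw [← pow_mul, mul_comm m 2, pow_mul]
    norm_num
    rw [one_div, inv_pow, div_inv_eq_mul]
  have h3 : ∑ i ∈ S.I.filter (fun i => 32 * m ≤ (S.A i ∩ Hm θ S m).card), om θ S i ≤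
      ∑ i ∈ S.I.filter (fun i => 8 * (4 * m) ≤ (S.A i ∩ Hm θ S m).card ∧
        4 * (S.B i ∩ Hm θ S m).card ≤ (S.A i ∩ Hm θ S m).card), om θ S i +
      ∑ i ∈ S.I.filter (fun i => 2 * (4 * m) < (S.A i ∩ Hm θ S m).card ∧
        2 * (4 * m) < (S.B i ∩ Hm θ S m).card), om θ S i := by
    simp only [sum_filter, ← sum_add_distrib]
    refine sum_le_sum fun i _ => ?_
    have ho := om_pos hθ0 S i
    by_cases c : 32 * m ≤ (S.A i ∩ Hm θ S m).card
    · rw [if_pos c]
      by_cases c1 : 4 * (S.B i ∩ Hm θ S m).card ≤ (S.A i ∩ Hm θ S m).card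
      · rw [if_pos ⟨by omega, c1⟩]
        split_ifs <;> linarith
      · have c2 : 2 * (4 * m) < (S.A i ∩ Hm θ S m).card ∧
            2 * (4 * m) < (S.B i ∩ Hm θ S m).card := ⟨by omega, by omega⟩
        rw [if_pos c2]
        split_ifs <;> linarith
    · rw [if_neg c]
      split_ifs <;> linarith
  have h4 : ((1 : ℝ) / 2) ^ (4 * m) ≤ (2 / 5) ^ m := by
    rw [pow_mul]
    exact pow_le_pow_left₀ (by norm_num) (by norm_num) m
  have h5 : 2 * ((Hm θ S m).card : ℝ) * (11 / 20) ^ (4 * m) ≤ 16 * (2 / 5) ^ m := by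
    have e1 : ((11 : ℝ) / 20) ^ (4 * m) * 4 ^ m ≤ (2 / 5) ^ m := by
      rw [pow_mul, ← mul_pow]
      exact pow_le_pow_left₀ (by norm_num) (by norm_num) m
    have e2 : (0 : ℝ) ≤ (11 / 20) ^ (4 * m) := by positivity
    calc 2 * ((Hm θ S m).card : ℝ) * (11 / 20) ^ (4 * m)
        ≤ 2 * (8 * 4 ^ m) * (11 / 20) ^ (4 * m) := by
          refine mul_le_mul_of_nonneg_right ?_ e2
          linarith
      _ = 16 * ((11 / 20) ^ (4 * m) * 4 ^ m) := by ring
      _ ≤ 16 * (2 / 5) ^ m := by linarith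
  linarith

theorem nat_le_pow (n : ℕ) : (n : ℝ) ≤ (3 / 2) ^ n := by
  rcases Nat.lt_or_ge n 2 with hn | hn
  · interval_cases n <;> norm_num
  · induction n, hn using Nat.le_induction with
    | base => norm_num
    | succ k hk ih =>
      have : (2 : ℝ) ≤ k := by exact_mod_cast hk
      rw [pow_succ]
      push_cast
      nlinarith

theorem scale_bound {u : ℝ} {M L : ℕ} (h1 : u < (1 / 2) ^ M) (h2 : (1 / 2) ^ L ≤ u) :
    u ≤ ∑ m ∈ Ico M L, (1 / 2 : ℝ) ^ m * if (1 / 2 : ℝ) ^ (m + 1) ≤ u then 1 else 0 := by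
  have hex : ∃ n, (1 / 2 : ℝ) ^ n ≤ u := ⟨L, h2⟩
  classical
  set n := Nat.find hex with hn
  have hn1 : (1 / 2 : ℝ) ^ n ≤ u := Nat.find_spec hex
  have hnL : n ≤ L := Nat.find_min' hex h2
  have hnM : M < n := by
    by_contra hh
    push Not at hh
    have : (1 / 2 : ℝ) ^ M ≤ (1 / 2) ^ n :=
      pow_le_pow_of_le_one (by norm_num) (by norm_num) hh
    linarith
  have hmem : n - 1 ∈ Ico M L := by
    rw [mem_Ico]
    omega
  have hnn : ∀ m ∈ Ico M L, (0 : ℝ) ≤ (1 / 2 : ℝ) ^ m * if (1 / 2 : ℝ) ^ (m + 1) ≤ u then 1 else 0 := by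
    intro m _
    split_ifs <;> positivity
  refine le_trans ?_ (single_le_sum hnn hmem)
  have e1 : n - 1 + 1 = n := by omega
  rw [e1, if_pos hn1, mul_one]
  by_contra hh
  push Not at hh
  exact Nat.find_min hex (m := n - 1) (by omega) hh.le

/-- Some element is heavy. -/
theorem heavy (hθ : 1 / 2 < θ) (hθ' : θ ≤ 11 / 20) (hyp : Hyp ι X θ N) (h : Exact S)
    (hS : size S ≤ N) (hW : 1 ≤ W θ S) (hcard : 2 ≤ S.I.card) :
    ∃ x, (1 / 2 : ℝ) ^ 24 ≤ U θ S x := by
  by_contra hcon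
  push Not at hcon
  have hθ0 : 0 < θ := by linarith
  have hk : 9 / 11 ≤ θ⁻¹ - 1 := by
    have : (20 : ℝ) / 11 ≤ θ⁻¹ := by
      rw [le_inv_comm₀ (by norm_num) hθ0]
      linarith
    linarith
  -- a common scale
  obtain ⟨L, hL⟩ : ∃ L, ∀ i ∈ S.I, ∀ x ∈ S.A i, (1 / 2 : ℝ) ^ L ≤ U θ S x := by
    have h1 : ∀ i ∈ S.I, ∀ x ∈ S.A i, 0 < U θ S x := by
      intro i hi x hx
      unfold U E
      refine sum_pos' (fun j _ => mul_nonneg (om_pos hθ0 S j).le (ia_nonneg S x j)) ⟨i, hi, ?_⟩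
      simp only [ia, hx, if_true, mul_one]
      exact om_pos hθ0 S i
    have h2 : ∀ x ∈ S.I.biUnion S.A, ∃ n : ℕ, (1 / 2 : ℝ) ^ n ≤ U θ S x := by
      intro x hx
      obtain ⟨i, hi, hxi⟩ := mem_biUnion.1 hx
      obtain ⟨n, hn⟩ := exists_pow_lt_of_lt_one (h1 i hi x hxi) (by norm_num : (1 / 2 : ℝ) < 1)
      exact ⟨n, hn.le⟩
    choose! f hf using h2
    refine ⟨(S.I.biUnion S.A).sup f, fun i hi x hx => ?_⟩
    have hmem : x ∈ S.I.biUnion S.A := mem_biUnion.2 ⟨i, hi, hx⟩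
    exact le_trans (pow_le_pow_of_le_one (by norm_num) (by norm_num) (le_sup hmem)) (hf x hmem)
  -- a good index
  obtain ⟨i, hi, hgood⟩ : ∃ i ∈ S.I, ∀ m ∈ Ico 25 (L + 1),
      (S.A i ∩ Hm θ S m).card < 32 * m := by
    by_contra hbad
    push Not at hbad
    have h1 : W θ S ≤ ∑ m ∈ Ico 25 (L + 1),
        ∑ i ∈ S.I.filter (fun i => 32 * m ≤ (S.A i ∩ Hm θ S m).card), om θ S i := by
      simp only [sum_filter]
      rw [sum_comm]
      refine sum_le_sum fun i hi => ?_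
      obtain ⟨m, hm, hmi⟩ := hbad i hi
      have hnn : ∀ m ∈ Ico 25 (L + 1),
          0 ≤ if 32 * m ≤ (S.A i ∩ Hm θ S m).card then om θ S i else 0 := by
        intro m _
        have := om_pos hθ0 S i
        split_ifs <;> linarith
      refine le_trans ?_ (single_le_sum hnn hm)
      rw [if_pos hmi]
    have h2 : ∑ m ∈ Ico 25 (L + 1),
        ∑ i ∈ S.I.filter (fun i => 32 * m ≤ (S.A i ∩ Hm θ S m).card), om θ S i ≤
        ∑ m ∈ Ico 25 (L + 1), 17 * (2 / 5 : ℝ) ^ m :=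
      sum_le_sum fun m hm => bad_weight hθ hθ' hyp h hS hW (by rw [mem_Ico] at hm; omega)
    have h3 : ∑ m ∈ Ico 25 (L + 1), (2 / 5 : ℝ) ^ m ≤ (2 / 5) ^ 25 / (1 - 2 / 5) :=
      geom_sum_Ico_le_of_lt_one (by norm_num) (by norm_num)
    rw [← mul_sum] at h2
    have h4 : (17 : ℝ) * ((2 / 5) ^ 25 / (1 - 2 / 5)) < 1 := by norm_num
    linarith
  -- upper bound for the mass of `A i`
  have hup : ∑ x ∈ S.A i, U θ S x ≤ 1 / 2 := by
    have h1 : ∑ x ∈ S.A i, U θ S x ≤ ∑ x ∈ S.A i, ∑ m ∈ Ico 24 L,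
        (1 / 2 : ℝ) ^ m * if (1 / 2 : ℝ) ^ (m + 1) ≤ U θ S x then 1 else 0 :=
      sum_le_sum fun x hx => scale_bound (hcon x) (hL i hi x hx)
    rw [sum_comm] at h1
    have h2 : ∀ m ∈ Ico 24 L, ∑ x ∈ S.A i,
        (1 / 2 : ℝ) ^ m * (if (1 / 2 : ℝ) ^ (m + 1) ≤ U θ S x then 1 else 0) ≤
        48 * (3 / 4) ^ m := by
      intro m hm
      rw [mem_Ico] at hm
      rw [← mul_sum, sum_boole]
      have e1 : (S.A i).filter (fun x => (1 / 2 : ℝ) ^ (m + 1) ≤ U θ S x) ⊆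
          S.A i ∩ Hm θ S (m + 1) := by
        intro x hx
        rw [mem_filter] at hx
        rw [mem_inter, Hm, mem_filter]
        exact ⟨hx.1, mem_biUnion.2 ⟨i, hi, mem_union_left _ hx.1⟩, hx.2⟩
      have e2 := (card_le_card e1).trans (hgood (m + 1) (by rw [mem_Ico]; omega)).le
      have e3 : (((S.A i).filter (fun x => (1 / 2 : ℝ) ^ (m + 1) ≤ U θ S x)).card : ℝ) ≤
          32 * (m + 1 : ℕ) := by exact_mod_cast e2
      have e4 := nat_le_pow (m + 1)
      have e5 : ((1 : ℝ) / 2) ^ m * (32 * (3 / 2) ^ (m + 1)) = 48 * (3 / 4) ^ m := by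
        rw [pow_succ, show ((3 : ℝ) / 4) = 1 / 2 * (3 / 2) by norm_num, mul_pow]
        ring
      rw [← e5]
      refine mul_le_mul_of_nonneg_left ?_ (by positivity)
      linarith
    have h3 : ∑ m ∈ Ico 24 L, (48 : ℝ) * (3 / 4) ^ m ≤ 48 * ((3 / 4) ^ 24 / (1 - 3 / 4)) := by
      rw [← mul_sum]
      exact mul_le_mul_of_nonneg_left
        (geom_sum_Ico_le_of_lt_one (by norm_num) (by norm_num)) (by norm_num)
    have h4 : (48 : ℝ) * ((3 / 4) ^ 24 / (1 - 3 / 4)) ≤ 1 / 2 := by norm_num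
    exact h1.trans ((sum_le_sum h2).trans (h3.trans h4))
  -- lower bound
  have hlow : W θ S - om θ S i = ∑ x ∈ S.A i, V θ S x := by
    classical
    unfold V E
    rw [sum_comm]
    have h1 : ∀ k ∈ S.I, ∑ x ∈ S.A i, om θ S k * ib S x k = if k = i then 0 else om θ S k := by
      intro k hk
      rw [← mul_sum]
      have e1 : ∑ x ∈ S.A i, ib S x k = ((S.A i ∩ S.B k).card : ℝ) := by
        unfold ib
        rw [sum_ite_mem, sum_const, nsmul_eq_mul, mul_one]
      rw [e1]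
      by_cases hki : k = i
      · subst hki
        rw [disjoint_iff_inter_eq_empty.1 (h.1 k hk)]
        simp
      · rw [h.2 i hi k hk (Ne.symm hki), if_neg hki]
        simp
    rw [sum_congr rfl h1]
    have h2 : ∑ k ∈ S.I, (if k = i then (0 : ℝ) else om θ S k) = W θ S - om θ S i := by
      unfold W
      rw [← sum_erase_add _ _ hi, ← sum_erase_add S.I (fun k => om θ S k) hi]
      rw [if_pos rfl, add_zero, add_sub_cancel_right]
      exact sum_congr rfl fun k hk => by rw [if_neg (ne_of_mem_erase hk)]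
    exact h2.symm
  have hom : om θ S i ≤ 121 / 400 := by
    obtain ⟨k, hk, hki⟩ : ∃ k ∈ S.I, k ≠ i := by
      by_contra hh
      push Not at hh
      have : S.I ⊆ {i} := fun k hk => mem_singleton.2 (hh k hk)
      have := card_le_card this
      rw [card_singleton] at this
      omega
    have a1 : 1 ≤ (S.A i).card := by
      have := h.2 i hi k hk hki.symm
      have h2 : (S.A i ∩ S.B k).card ≤ (S.A i).card := card_le_card inter_subset_left
      omega
    have a2 : 1 ≤ (S.B i).card := by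
      have := h.2 k hk i hi hki
      have h2 : (S.A k ∩ S.B i).card ≤ (S.B i).card := card_le_card inter_subset_right
      omega
    unfold om
    calc θ ^ ((S.A i).card + (S.B i).card) ≤ θ ^ 2 :=
          pow_le_pow_of_le_one hθ0.le (by linarith) (by omega)
      _ ≤ (11 / 20) ^ 2 := pow_le_pow_left₀ hθ0.le hθ' 2
      _ = 121 / 400 := by norm_num
  have hVU : ∑ x ∈ S.A i, (9 / 11 : ℝ) * V θ S x ≤ ∑ x ∈ S.A i, U θ S x := by
    refine sum_le_sum fun x _ => ?_
    have a1 := kV_le (δ := 0) hθ0 le_rfl hyp h hS (by linarith) x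
    have a2 := V_nonneg hθ0 S x
    nlinarith
  rw [← mul_sum, ← hlow] at hVU
  nlinarith

end Pool.Agent.Cross1
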