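import Pool.Agent.Cross1.Tools

/-!
# Making a heavy element heavier by restricting one more element
-/

set_option autoImplicit false
set_option linter.unusedSectionVars false
set_option linter.unusedSimpArgs false

namespace Pool.Agent.Cross1

open Finset

variable {ι X : Type*} [DecidableEq X]

/-- The ground set. -/
def G (S : Sys ι X) : Finset X := S.I.biUnion fun i => S.A i ∪ S.B i

/-- Weight of the indices with `x ∈ A i` and `y ∈ B i`. -/
noncomputable def cc (θ : ℝ) (S : Sys ι X) (x y : X) : ℝ := E θ S fun i => ia S x i * ib S y i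

/-- Weight of the indices with `x ∈ A i` and `y ∈ A i`. -/
noncomputable def aa (θ : ℝ) (S : Sys ι X) (x y : X) : ℝ := E θ S fun i => ia S x i * ia S y i

/-- Weight of the indices with `x ∈ B i` and `y ∈ A i`. -/
noncomputable def dd (θ : ℝ) (S : Sys ι X) (x y : X) : ℝ := E θ S fun i => ib S x i * ia S y i

theorem cc_dual (θ : ℝ) (S : Sys ι X) (x y : X) : cc θ (dual S) x y = dd θ S x y := by
  unfold cc dd
  rw [E_dual, ia_dual, ib_dual]

theorem dd_dual (θ : ℝ) (S : Sys ι X) (x y : X) : dd θ (dual S) x y = cc θ S x y := by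
  unfold cc dd
  rw [E_dual, ia_dual, ib_dual]

theorem G_dual (S : Sys ι X) : G (dual S) = G S := by
  unfold G dual
  simp only [union_comm]

theorem sum_ia_ib {S : Sys ι X} {i k : ι} (hk : k ∈ S.I) :
    ∑ y ∈ G S, ia S y k * ib S y i = ((S.A k ∩ S.B i).card : ℝ) := by
  have h1 : ∀ y, ia S y k * ib S y i = if y ∈ S.A k ∩ S.B i then (1 : ℝ) else 0 := by
    intro y
    unfold ia ib
    by_cases h1 : y ∈ S.A k <;> by_cases h2 : y ∈ S.B i <;> simp [h1, h2]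
  simp only [h1]
  rw [sum_ite_mem]
  have h2 : G S ∩ (S.A k ∩ S.B i) = S.A k ∩ S.B i := by
    rw [inter_eq_right]
    intro y hy
    exact mem_biUnion.2 ⟨k, hk, mem_union_left _ (mem_inter.1 hy).1⟩
  rw [h2, sum_const, nsmul_eq_mul, mul_one]

theorem E_mul_E (θ : ℝ) (S : Sys ι X) (f g : ι → ℝ) :
    E θ S f * E θ S g = ∑ i ∈ S.I, ∑ k ∈ S.I, om θ S i * om θ S k * (f i * g k) := by
  unfold E
  rw [sum_mul_sum]
  refine sum_congr rfl fun i _ => sum_congr rfl fun k _ => by ring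

/-- Every pair of indices, one with `x ∈ A i` and one with `x ∈ B k`, has exactly one conflict in
the other direction. -/
theorem sum_cc_dd {θ : ℝ} {S : Sys ι X} (h : Exact S) (x : X) :
    ∑ y ∈ G S, cc θ S x y * dd θ S x y = U θ S x * V θ S x := by
  unfold cc dd U V
  simp only [E_mul_E]
  rw [sum_comm]
  refine sum_congr rfl fun i hi => ?_
  rw [sum_comm]
  refine sum_congr rfl fun k hk => ?_
  have h1 : ∑ y ∈ G S, om θ S i * om θ S k * (ia S x i * ib S y i * (ib S x k * ia S y k)) =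
      om θ S i * om θ S k * (ia S x i * ib S x k) * ∑ y ∈ G S, ia S y k * ib S y i := by
    rw [mul_sum]
    exact sum_congr rfl fun y _ => by ring
  rw [h1, sum_ia_ib hk]
  by_cases hxi : x ∈ S.A i
  · by_cases hxk : x ∈ S.B k
    · have hne : k ≠ i := by
        rintro rfl
        exact disjoint_left.1 (h.1 k hk) hxi hxk
      rw [h.2 k hk i hi hne]
      simp
    · simp [ib, hxk]
  · simp [ia, hxi]

theorem ia_add_ib_le {S : Sys ι X} (h : Exact S) (x : X) {i : ι} (hi : i ∈ S.I) :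
    ia S x i + ib S x i ≤ 1 := by
  unfold ia ib
  by_cases h1 : x ∈ S.A i
  · have h2 : x ∉ S.B i := disjoint_left.1 (h.1 i hi) h1
    simp [h1, h2]
  · by_cases h2 : x ∈ S.B i <;> simp [h1, h2]

theorem U_add_V_le {θ : ℝ} (hθ : 0 < θ) {S : Sys ι X} (h : Exact S) (x : X) :
    U θ S x + V θ S x ≤ W θ S := by
  rw [W_eq_E, U, V, ← E_add]
  exact E_mono hθ S fun i hi => ia_add_ib_le h x hi

theorem inter_card_le_one {S : Sys ι X} (h : Exact S) {i k : ι} (hi : i ∈ S.I) (hk : k ∈ S.I) :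
    (S.A i ∩ S.B k).card ≤ 1 := by
  by_cases hik : i = k
  · subst hik
    rw [disjoint_iff_inter_eq_empty.1 (h.1 i hi), card_empty]
    exact Nat.zero_le _
  · exact (h.2 i hi k hk hik).le

theorem sum_UV_le {θ : ℝ} (hθ : 0 < θ) {S : Sys ι X} (h : Exact S) :
    ∑ y ∈ G S, U θ S y * V θ S y ≤ W θ S ^ 2 := by
  have h0 : W θ S ^ 2 = ∑ i ∈ S.I, ∑ k ∈ S.I, om θ S i * om θ S k := by
    rw [sq, W, sum_mul_sum]
  rw [h0]
  unfold U V
  simp only [E_mul_E]
  rw [sum_comm]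
  refine sum_le_sum fun i hi => ?_
  rw [sum_comm]
  refine sum_le_sum fun k hk => ?_
  rw [← mul_sum, sum_ia_ib hi]
  have h1 : ((S.A i ∩ S.B k).card : ℝ) ≤ 1 := by exact_mod_cast inter_card_le_one h hi hk
  have h2 : 0 ≤ om θ S i * om θ S k := mul_nonneg (om_pos hθ S i).le (om_pos hθ S k).le
  nlinarith

section Bounds

variable {θ δ : ℝ} {N : ℕ} {S : Sys ι X}

theorem kU_le (hθ : 0 < θ) (hδ : 0 ≤ δ) (hyp : Hyp ι X θ N) (h : Exact S) (hS : size S ≤ N)
    (hW : 1 - δ ≤ W θ S) (y : X) : (θ⁻¹ - 1) * U θ S y - δ ≤ V θ S y := by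
  by_cases ht : Touched S y
  · have h1 : W θ (res S {y} ∅) ≤ 1 := res_le_one hyp h hS (x := y) (by simp) ht
    rw [W_in hθ h] at h1
    linarith
  · have hU : U θ S y = 0 := by
      rcases (U_nonneg hθ S y).eq_or_lt with h0 | h0
      · exact h0.symm
      · exact absurd (touched_of_U_pos h0) ht
    rw [hU]
    have := V_nonneg hθ S y
    linarith

theorem kV_le (hθ : 0 < θ) (hδ : 0 ≤ δ) (hyp : Hyp ι X θ N) (h : Exact S) (hS : size S ≤ N)
    (hW : 1 - δ ≤ W θ S) (y : X) : (θ⁻¹ - 1) * V θ S y - δ ≤ U θ S y := by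
  have := kU_le hθ hδ hyp (exact_dual h) (by rw [size_dual]; exact hS) (by rw [W_dual]; exact hW) y
  rw [U_dual, V_dual] at this
  exact this

theorem U_le (hθ : 0 < θ) (hyp : Hyp ι X θ N) (h : Exact S) (hS : size S ≤ N) (y : X) :
    U θ S y ≤ θ := by
  by_cases ht : Touched S y
  · have h1 : W θ (res S {y} ∅) ≤ 1 := res_le_one hyp h hS (x := y) (by simp) ht
    rw [W_in hθ h] at h1
    have h2 := U_add_V_le hθ h y
    have h3 : θ⁻¹ * U θ S y ≤ 1 := by linarith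
    rw [inv_mul_le_iff₀ hθ, mul_one] at h3
    exact h3
  · have hU : U θ S y = 0 := by
      rcases (U_nonneg hθ S y).eq_or_lt with h0 | h0
      · exact h0.symm
      · exact absurd (touched_of_U_pos h0) ht
    rw [hU]
    exact hθ.le

theorem V_le (hθ : 0 < θ) (hyp : Hyp ι X θ N) (h : Exact S) (hS : size S ≤ N) (y : X) :
    V θ S y ≤ θ := by
  rw [← U_dual]
  exact U_le hθ hyp (exact_dual h) (by rw [size_dual]; exact hS) y

theorem W_le (hθ : 0 < θ) (hθ1 : θ ≤ 1) (hyp : Hyp ι X θ N) (h : Exact S) (hS : size S ≤ N)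
    {y : X} (ht : Touched S y) : W θ S ≤ 1 + θ := by
  have h1 : W θ (res S {y} ∅) ≤ 1 := res_le_one hyp h hS (x := y) (by simp) ht
  rw [W_in hθ h] at h1
  have h2 := V_le hθ hyp h hS y
  have h3 := U_nonneg hθ S y
  have h4 : 1 ≤ θ⁻¹ := (one_le_inv₀ hθ).2 hθ1
  nlinarith

/-- Number of heavy elements. -/
theorem card_heavy (hθ : 1 / 2 < θ) (hθ' : θ ≤ 11 / 20) (hyp : Hyp ι X θ N) (h : Exact S)
    (hS : size S ≤ N) {η : ℝ} (hη : 0 < η) (hδ : 0 ≤ δ) (hδη : δ ≤ η / 4)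
    (hW : 1 - δ ≤ W θ S) (T : Finset X) (hT : T ⊆ G S) (hTη : ∀ y ∈ T, η ≤ U θ S y) :
    (T.card : ℝ) ≤ 8 / η ^ 2 := by
  have hθ0 : 0 < θ := by linarith
  have hk : 9 / 11 ≤ θ⁻¹ - 1 := by
    have : (20 : ℝ) / 11 ≤ θ⁻¹ := by
      rw [le_inv_comm₀ (by norm_num) hθ0]
      linarith
    linarith
  rcases T.eq_empty_or_nonempty with rfl | ⟨y0, hy0⟩
  · simp only [card_empty, Nat.cast_zero]
    positivity
  have hUp : 0 < U θ S y0 := lt_of_lt_of_le hη (hTη y0 hy0)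
  have hW2 : W θ S ≤ 1 + θ := W_le hθ0 (by linarith) hyp h hS (touched_of_U_pos hUp)
  have hWnn : 0 ≤ W θ S := sum_nonneg fun i _ => (om_pos hθ0 S i).le
  have h1 : ∀ y ∈ T, η ^ 2 / 2 ≤ U θ S y * V θ S y := by
    intro y hy
    have a1 := hTη y hy
    have a2 := kU_le hθ0 hδ hyp h hS hW y
    have a3 : η / 2 ≤ V θ S y := by nlinarith
    nlinarith
  have h2 : (T.card : ℝ) * (η ^ 2 / 2) ≤ ∑ y ∈ G S, U θ S y * V θ S y := by
    calc (T.card : ℝ) * (η ^ 2 / 2) = ∑ _y ∈ T, η ^ 2 / 2 := by rw [sum_const, nsmul_eq_mul]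
      _ ≤ ∑ y ∈ T, U θ S y * V θ S y := sum_le_sum h1
      _ ≤ ∑ y ∈ G S, U θ S y * V θ S y := sum_le_sum_of_subset_of_nonneg hT fun y _ _ =>
          mul_nonneg (U_nonneg hθ0 S y) (V_nonneg hθ0 S y)
  have h3 := sum_UV_le hθ0 h (θ := θ)
  have h4 : W θ S ^ 2 ≤ 4 := by nlinarith
  rw [le_div_iff₀ (by positivity)]
  nlinarith

/-- The elements `y` such that no `A i` contains `x` and `y`. -/
def Y1 (S : Sys ι X) (x : X) : Finset X := (G S).filter fun y => ∀ i ∈ S.I, x ∈ S.A i → y ∉ S.A i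

theorem cc_nonneg (hθ : 0 < θ) (S : Sys ι X) (x y : X) : 0 ≤ cc θ S x y :=
  E_nonneg hθ S fun i _ => mul_nonneg (ia_nonneg S x i) (ib_nonneg S y i)

theorem dd_nonneg (hθ : 0 < θ) (S : Sys ι X) (x y : X) : 0 ≤ dd θ S x y :=
  E_nonneg hθ S fun i _ => mul_nonneg (ib_nonneg S x i) (ia_nonneg S y i)

theorem dd_le_U (hθ : 0 < θ) (S : Sys ι X) (x y : X) : dd θ S x y ≤ U θ S y :=
  E_mono hθ S fun i _ => by
    have h1 := ib_le_one S x i
    have h2 := ia_nonneg S y i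
    nlinarith

theorem two_pow_ge (hθ0 : 0 < θ) (hθ' : θ ≤ 11 / 20) (n : ℕ) : (n : ℝ) ≤ θ⁻¹ ^ (1 + n) := by
  have h1 : (3 : ℝ) / 2 ≤ θ⁻¹ := by
    rw [le_inv_comm₀ (by norm_num) hθ0]
    norm_num
    linarith
  have h2 : (1 : ℝ) + (1 + n : ℕ) * (1 / 2) ≤ (1 + 1 / 2) ^ (1 + n) :=
    one_add_mul_le_pow (by norm_num) (1 + n)
  have h3 : ((1 : ℝ) + 1 / 2) ^ (1 + n) ≤ θ⁻¹ ^ (1 + n) := by
    apply pow_le_pow_left₀ (by norm_num)
    linarith
  have h4 : (n : ℝ) ≤ (3 / 2) ^ (1 + n) := by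
    induction n with
    | zero => norm_num
    | succ k ih =>
      have ih' : (k : ℝ) ≤ (3 / 2) ^ (1 + k) := by
        apply ih
        · exact one_add_mul_le_pow (by norm_num) (1 + k)
        · apply pow_le_pow_left₀ (by norm_num)
          linarith
      rw [show 1 + (k + 1) = (1 + k) + 1 by ring, pow_succ]
      push_cast
      rcases Nat.lt_or_ge k 2 with hk | hk
      · interval_cases k <;> norm_num
      · have : (2 : ℝ) ≤ k := by exact_mod_cast hk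
        nlinarith
  calc (n : ℝ) ≤ (3 / 2) ^ (1 + n) := h4
    _ = (1 + 1 / 2) ^ (1 + n) := by norm_num
    _ ≤ _ := h3

theorem sum_cc_Y1_le (hθ0 : 0 < θ) (hθ' : θ ≤ 11 / 20) (hyp : Hyp ι X θ N) (h : Exact S)
    (hS : size S ≤ N) (x : X) : ∑ y ∈ Y1 S x, cc θ S x y ≤ 1 := by
  have h1 : ∑ y ∈ Y1 S x, cc θ S x y =
      E θ S fun i => ia S x i * ((S.B i ∩ Y1 S x).card : ℝ) := by
    unfold cc E
    rw [sum_comm]
    refine sum_congr rfl fun i _ => ?_
    have h2 : ∑ y ∈ Y1 S x, ib S y i = ((S.B i ∩ Y1 S x).card : ℝ) := by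
      unfold ib
      rw [sum_ite_mem, sum_const, nsmul_eq_mul, mul_one, inter_comm]
    change _ = om θ S i * (ia S x i * ((S.B i ∩ Y1 S x).card : ℝ))
    rw [← h2, mul_sum, mul_sum]
  rw [h1]
  refine le_trans (E_mono hθ0 S fun i hi => ?_) (announce hθ0 (by linarith) hyp h hS x)
  by_cases hx : x ∈ S.A i
  · have h3 : S.B i ∩ Y1 S x ⊆ Fs S x i := by
      intro y hy
      rw [mem_inter, Y1, mem_filter] at hy
      rw [Fs, mem_filter]
      exact ⟨hy.1, hy.2.2⟩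
    have h4 : ((S.B i ∩ Y1 S x).card : ℝ) ≤ ((Fs S x i).card : ℝ) := by
      exact_mod_cast card_le_card h3
    have h5 := two_pow_ge hθ0 hθ' (Fs S x i).card
    refine mul_le_mul_of_nonneg_left (h4.trans h5) (ia_nonneg S x i)
  · simp [ia, hx]

theorem half_bound (hθ : 1 / 2 < θ) (hθ' : θ ≤ 11 / 20) (hyp : Hyp ι X θ N) (h : Exact S)
    (hS : size S ≤ N) {η g : ℝ} (hη : 0 < η) (hδ : 0 ≤ δ) (hδη : δ ≤ η / 4) (hg : 0 ≤ g)
    (hW : 1 - δ ≤ W θ S) (x : X) (hc : ∀ y ∈ Y1 S x, cc θ S x y ≤ g) :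
    ∑ y ∈ Y1 S x, cc θ S x y * dd θ S x y ≤ η + g * (8 / η ^ 2) := by
  have hθ0 : 0 < θ := by linarith
  rw [← sum_filter_add_sum_filter_not (Y1 S x) (fun y => dd θ S x y < η)]
  have h1 : ∑ y ∈ (Y1 S x).filter (fun y => dd θ S x y < η), cc θ S x y * dd θ S x y ≤ η := by
    calc ∑ y ∈ (Y1 S x).filter (fun y => dd θ S x y < η), cc θ S x y * dd θ S x y
        ≤ ∑ y ∈ (Y1 S x).filter (fun y => dd θ S x y < η), cc θ S x y * η := by
          refine sum_le_sum fun y hy => ?_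
          exact mul_le_mul_of_nonneg_left (mem_filter.1 hy).2.le (cc_nonneg hθ0 S x y)
      _ = (∑ y ∈ (Y1 S x).filter (fun y => dd θ S x y < η), cc θ S x y) * η := by rw [sum_mul]
      _ ≤ (∑ y ∈ Y1 S x, cc θ S x y) * η := by
          refine mul_le_mul_of_nonneg_right ?_ hη.le
          exact sum_le_sum_of_subset_of_nonneg (filter_subset _ _) fun y _ _ =>
            cc_nonneg hθ0 S x y
      _ ≤ 1 * η := mul_le_mul_of_nonneg_right (sum_cc_Y1_le hθ0 hθ' hyp h hS x) hη.le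
      _ = η := one_mul η
  have h2 : ∑ y ∈ (Y1 S x).filter (fun y => ¬ dd θ S x y < η), cc θ S x y * dd θ S x y ≤
      g * (8 / η ^ 2) := by
    set T := (Y1 S x).filter (fun y => ¬ dd θ S x y < η) with hT
    have hTG : T ⊆ G S := (filter_subset _ _).trans (filter_subset _ _)
    have hcard : (T.card : ℝ) ≤ 8 / η ^ 2 := by
      refine card_heavy hθ hθ' hyp h hS hη hδ hδη hW T hTG fun y hy => ?_
      have := (mem_filter.1 hy).2
      rw [not_lt] at this
      exact this.trans (dd_le_U hθ0 S x y)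
    calc ∑ y ∈ T, cc θ S x y * dd θ S x y ≤ ∑ _y ∈ T, g := by
          refine sum_le_sum fun y hy => ?_
          have a1 := hc y (mem_filter.1 hy).1
          have a2 := (dd_le_U hθ0 S x y).trans (U_le hθ0 hyp h hS y)
          have a3 := dd_nonneg hθ0 S x y
          have a4 := cc_nonneg hθ0 S x y
          nlinarith
      _ = (T.card : ℝ) * g := by rw [sum_const, nsmul_eq_mul]
      _ ≤ (8 / η ^ 2) * g := mul_le_mul_of_nonneg_right hcard hg
      _ = g * (8 / η ^ 2) := mul_comm _ _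
  exact add_le_add h1 h2

/-- One more restricted element makes a heavy element heavier. -/
theorem increase_aux {h0 : ℝ} (hh0 : 0 < h0) (hh1 : h0 ≤ 1) (hθ : 1 / 2 < θ) (hθ' : θ ≤ 11 / 20)
    (hδ : 0 ≤ δ) (hsmall : (1 - (θ⁻¹ - 1)) + δ ≤ h0 ^ 6 / 65536) (hyp : Hyp ι X θ N) (h : Exact S)
    (hS : size S ≤ N) (hW : 1 - δ ≤ W θ S) {x : X} (hx : h0 ≤ max (U θ S x) (V θ S x))
    (hA : ∀ y ∈ Y1 S x, cc θ S x y ≤ h0 ^ 6 / 16384)
    (hB : ∀ y ∈ Y1 (dual S) x, cc θ (dual S) x y ≤ h0 ^ 6 / 16384) : False := by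
  have hθ0 : 0 < θ := by linarith
  have hk : 9 / 11 ≤ θ⁻¹ - 1 := by
    have : (20 : ℝ) / 11 ≤ θ⁻¹ := by
      rw [le_inv_comm₀ (by norm_num) hθ0]
      linarith
    linarith
  have hk1 : θ⁻¹ - 1 ≤ 1 := by
    have : θ⁻¹ ≤ 2 := by
      rw [inv_le_comm₀ hθ0 (by norm_num)]
      linarith
    linarith
  have hp2 : h0 ^ 2 ≤ 1 := pow_le_one₀ hh0.le hh1
  have hp6 : h0 ^ 6 ≤ h0 ^ 2 := pow_le_pow_of_le_one hh0.le hh1 (by norm_num)
  have hp6' : h0 ^ 6 ≤ h0 := by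
    calc h0 ^ 6 ≤ h0 ^ 1 := pow_le_pow_of_le_one hh0.le hh1 (by norm_num)
      _ = h0 := pow_one _
  have hδ1 : δ ≤ h0 ^ 6 / 65536 := by linarith
  set η : ℝ := h0 ^ 2 / 16 with hη
  have hη0 : 0 < η := by positivity
  have hδη : δ ≤ η / 4 := by
    rw [hη]
    nlinarith
  set g : ℝ := h0 ^ 6 / 16384 with hg
  have hg0 : 0 ≤ g := by positivity
  have hgη : g * (8 / η ^ 2) = h0 ^ 2 / 8 := by
    rw [hg, hη]
    field_simp
    ring
  have b1 := half_bound hθ hθ' hyp h hS hη0 hδ hδη hg0 hW x hA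
  have b2 := half_bound hθ hθ' hyp (exact_dual h) (by rw [size_dual]; exact hS) hη0 hδ hδη hg0
    (by rw [W_dual]; exact hW) x hB
  simp only [cc_dual, dd_dual] at b2
  rw [hgη] at b1 b2
  -- the sum over the ground set
  have hsum := sum_cc_dd (θ := θ) h x
  have hle : ∑ y ∈ G S, cc θ S x y * dd θ S x y ≤
      ∑ y ∈ Y1 S x, cc θ S x y * dd θ S x y +
        ∑ y ∈ Y1 (dual S) x, dd θ S x y * cc θ S x y := by
    have e1 : ∑ y ∈ Y1 S x, cc θ S x y * dd θ S x y =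
        ∑ y ∈ G S, if ∀ i ∈ S.I, x ∈ S.A i → y ∉ S.A i then cc θ S x y * dd θ S x y else 0 := by
      rw [Y1, sum_filter]
    have e2 : ∑ y ∈ Y1 (dual S) x, dd θ S x y * cc θ S x y =
        ∑ y ∈ G S, if ∀ i ∈ S.I, x ∈ S.B i → y ∉ S.B i then dd θ S x y * cc θ S x y else 0 := by
      rw [Y1, sum_filter, G_dual]
      rfl
    rw [e1, e2, ← sum_add_distrib]
    refine sum_le_sum fun y _ => ?_
    have hnn : 0 ≤ cc θ S x y * dd θ S x y :=
      mul_nonneg (cc_nonneg hθ0 S x y) (dd_nonneg hθ0 S x y)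
    by_cases c1 : ∀ i ∈ S.I, x ∈ S.A i → y ∉ S.A i
    · rw [if_pos c1]
      split_ifs <;> nlinarith
    · rw [if_neg c1]
      by_cases c2 : ∀ i ∈ S.I, x ∈ S.B i → y ∉ S.B i
      · rw [if_pos c2]
        nlinarith
      · rw [if_neg c2]
        push Not at c1 c2
        obtain ⟨i, hi, hxi, hyi⟩ := c1
        obtain ⟨l, hl, hxl, hyl⟩ := c2
        have hne : i ≠ l := by
          rintro rfl
          exact disjoint_left.1 (h.1 i hi) hxi hxl
        by_cases hxy : x = y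
        · subst hxy
          have : cc θ S x x = 0 := by
            unfold cc E
            refine sum_eq_zero fun j hj => ?_
            by_cases hxj : x ∈ S.A j
            · have : x ∉ S.B j := disjoint_left.1 (h.1 j hj) hxj
              simp [ib, this]
            · simp [ia, hxj]
          rw [this]
          simp
        · have hc := h.2 i hi l hl hne
          have : 1 < (S.A i ∩ S.B l).card :=
            one_lt_card.2 ⟨x, mem_inter.2 ⟨hxi, hxl⟩, y, mem_inter.2 ⟨hyi, hyl⟩, hxy⟩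
          omega
  have hUV : U θ S x * V θ S x ≤ 3 * h0 ^ 2 / 8 := by
    rw [← hsum]
    rw [hη] at b1 b2
    linarith
  -- lower bound for the product
  have hk1U := kU_le hθ0 hδ hyp h hS hW x
  have hk1V := kV_le hθ0 hδ hyp h hS hW x
  have hUle := U_le hθ0 hyp h hS x
  have hVle := V_le hθ0 hyp h hS x
  have hUnn := U_nonneg hθ0 S x
  have hVnn := V_nonneg hθ0 S x
  have hsq : 0 < h0 ^ 2 := by positivity
  have hδ2 : δ ≤ h0 / 65536 := by linarith
  have hmm : h0 * (3 / 4 * h0) = 3 / 4 * h0 ^ 2 := by ring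
  rcases le_max_iff.1 hx with hU | hV
  · have h1 : 9 / 11 * h0 ≤ (θ⁻¹ - 1) * U θ S x := mul_le_mul hk hU hh0.le (by linarith)
    have h2 : 3 / 4 * h0 ≤ V θ S x := by linarith
    have h3 : h0 * (3 / 4 * h0) ≤ U θ S x * V θ S x := mul_le_mul hU h2 (by positivity) hUnn
    linarith
  · have h1 : 9 / 11 * h0 ≤ (θ⁻¹ - 1) * V θ S x := mul_le_mul hk hV hh0.le (by linarith)
    have h2 : 3 / 4 * h0 ≤ U θ S x := by linarith
    have h3 : h0 * (3 / 4 * h0) ≤ V θ S x * U θ S x := mul_le_mul hV h2 (by positivity) hVnn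
    rw [mul_comm (V θ S x)] at h3
    linarith

theorem cc_le_V (hθ : 0 < θ) (S : Sys ι X) (x y : X) : cc θ S x y ≤ V θ S y :=
  E_mono hθ S fun i _ => by
    have h1 := ia_le_one S x i
    have h2 := ib_nonneg S y i
    nlinarith

theorem increaseA {h0 : ℝ} (hh0 : 0 < h0) (hθ : 1 / 2 < θ) (hθ' : θ ≤ 11 / 20)
    (hδ : 0 ≤ δ) (hsmall : (1 - (θ⁻¹ - 1)) + δ ≤ h0 ^ 6 / 65536) (hyp : Hyp ι X θ N) (h : Exact S)
    (hS : size S ≤ N) (hW : 1 - δ ≤ W θ S) {x : X}
    (hA : ∃ y ∈ Y1 S x, h0 ^ 6 / 16384 < cc θ S x y) :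
    ∃ S' : Sys ι X, Exact S' ∧ size S' ≤ N ∧ 1 - (2 * δ + 2 * (1 - (θ⁻¹ - 1))) ≤ W θ S' ∧
      max (U θ S x) (V θ S x) + h0 ^ 6 / 65536 ≤ max (U θ S' x) (V θ S' x) := by
  have hθ0 : 0 < θ := by linarith
  have hk : 9 / 11 ≤ θ⁻¹ - 1 := by
    have : (20 : ℝ) / 11 ≤ θ⁻¹ := by
      rw [le_inv_comm₀ (by norm_num) hθ0]
      linarith
    linarith
  have hk1 : θ⁻¹ - 1 ≤ 1 := by
    have : θ⁻¹ ≤ 2 := by
      rw [inv_le_comm₀ hθ0 (by norm_num)]
      linarith
    linarith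
  obtain ⟨y, hy, hcc⟩ := hA
  have hpos : 0 < cc θ S x y := lt_of_le_of_lt (by positivity) hcc
  have hVy : 0 < V θ S y := lt_of_lt_of_le hpos (cc_le_V hθ0 S x y)
  have hty : Touched S y := touched_of_V_pos hVy
  have hWin : W θ (res S {y} ∅) ≤ 1 := res_le_one hyp h hS (x := y) (by simp) hty
  have hUy := U_le hθ0 hyp h hS y
  have hVy' := V_le hθ0 hyp h hS y
  refine ⟨res S ∅ {y}, exact_res h _ _, (size_res_le S _ _).trans hS, ?_, ?_⟩
  · rw [W_in hθ0 h] at hWin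
    rw [W_out hθ0 h]
    nlinarith
  · refine le_trans ?_ (le_max_left _ _)
    have h1 : U θ (res S ∅ {y}) x = U θ S x + (θ⁻¹ - 1) * cc θ S x y := by
      have e0 : ia (res S ∅ {y}) x = ia S x := by
        funext i
        simp only [ia, res, sdiff_empty]
      unfold U
      rw [e0, E_res_out hθ0 h, cc, ← E_mul_left, ← E_add]
      refine E_congr fun i hi => ?_
      by_cases hxi : x ∈ S.A i
      · have hyi : y ∉ S.A i := (mem_filter.1 hy).2 i hi hxi
        simp only [ia, hxi, hyi, if_true, if_false]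
        ring
      · simp only [ia, hxi, if_false]
        ring
    rw [h1]
    have h2 : max (U θ S x) (V θ S x) ≤ U θ S x + h0 ^ 6 / 65536 := by
      apply max_le
      · have : 0 ≤ h0 ^ 6 / 65536 := by positivity
        linarith
      · have a1 := kV_le hθ0 hδ hyp h hS hW x
        have a2 := V_le hθ0 hyp h hS x
        nlinarith
    have h3 : 9 / 11 * (h0 ^ 6 / 16384) ≤ (θ⁻¹ - 1) * cc θ S x y :=
      mul_le_mul hk hcc.le (by positivity) (by linarith)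
    have h4 : 0 < h0 ^ 6 := by positivity
    linarith

/-- Restricting one more element makes a heavy element heavier. -/
theorem increase {h0 : ℝ} (hh0 : 0 < h0) (hh1 : h0 ≤ 1) (hθ : 1 / 2 < θ) (hθ' : θ ≤ 11 / 20)
    (hδ : 0 ≤ δ) (hsmall : (1 - (θ⁻¹ - 1)) + δ ≤ h0 ^ 6 / 65536) (hyp : Hyp ι X θ N) (h : Exact S)
    (hS : size S ≤ N) (hW : 1 - δ ≤ W θ S) {x : X} (hx : h0 ≤ max (U θ S x) (V θ S x)) :
    ∃ S' : Sys ι X, Exact S' ∧ size S' ≤ N ∧ 1 - (2 * δ + 2 * (1 - (θ⁻¹ - 1))) ≤ W θ S' ∧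
      max (U θ S x) (V θ S x) + h0 ^ 6 / 65536 ≤ max (U θ S' x) (V θ S' x) := by
  by_cases hA : ∃ y ∈ Y1 S x, h0 ^ 6 / 16384 < cc θ S x y
  · exact increaseA hh0 hθ hθ' hδ hsmall hyp h hS hW hA
  by_cases hB : ∃ y ∈ Y1 (dual S) x, h0 ^ 6 / 16384 < cc θ (dual S) x y
  · obtain ⟨S', h1, h2, h3, h4⟩ := increaseA hh0 hθ hθ' hδ hsmall hyp (exact_dual h)
      (by rw [size_dual]; exact hS) (by rw [W_dual]; exact hW) hB
    rw [U_dual, V_dual, max_comm (V θ S x)] at h4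
    exact ⟨S', h1, h2, h3, h4⟩
  · push Not at hA hB
    exact (increase_aux hh0 hh1 hθ hθ' hδ hsmall hyp h hS hW hx hA hB).elim

end Bounds

end Pool.Agent.Cross1
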