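import Pool.Agent.Cross1.Heavy

/-!
# The weighted inequality for exact systems
-/

set_option autoImplicit false
set_option linter.unusedSectionVars false
set_option linter.unusedSimpArgs false

namespace Pool.Agent.Cross1

open Finset

variable {ι X : Type*} [DecidableEq X]

theorem iterate {h0 θ : ℝ} (hh0 : 0 < h0) (hh1 : h0 ≤ 1) (hθ : 1 / 2 < θ) (hθ' : θ ≤ 11 / 20)
    {N : ℕ} (hyp : Hyp ι X θ N) {S : Sys ι X} (h : Exact S) (hS : size S ≤ N) (hW : 1 ≤ W θ S)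
    {x : X} (hx : h0 ≤ max (U θ S x) (V θ S x)) (n : ℕ)
    (hn : 2 ^ (n + 1) * (1 - (θ⁻¹ - 1)) ≤ h0 ^ 6 / 65536) :
    ∃ S' : Sys ι X, Exact S' ∧ size S' ≤ N ∧ 1 - (2 ^ (n + 1) - 2) * (1 - (θ⁻¹ - 1)) ≤ W θ S' ∧
      h0 + n * (h0 ^ 6 / 65536) ≤ max (U θ S' x) (V θ S' x) := by
  have hθ0 : 0 < θ := by linarith
  have he : 0 ≤ 1 - (θ⁻¹ - 1) := by
    have : θ⁻¹ ≤ 2 := by
      rw [inv_le_comm₀ hθ0 (by norm_num)]
      linarith
    linarith
  have hγ : 0 < h0 ^ 6 / 65536 := by positivity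
  set e := 1 - (θ⁻¹ - 1) with hedef
  induction n with
  | zero =>
    refine ⟨S, h, hS, ?_, ?_⟩
    · norm_num
      exact hW
    · push_cast
      linarith
  | succ n ih =>
    have hn' : 2 ^ (n + 1) * e ≤ h0 ^ 6 / 65536 := by
      refine le_trans ?_ hn
      rw [pow_succ (2 : ℝ) (n + 1)]
      have : (0 : ℝ) ≤ 2 ^ (n + 1) * e := by positivity
      linarith
    obtain ⟨S1, h1, hS1, hW1, hx1⟩ := ih hn'
    have h2 : (2 : ℝ) ≤ 2 ^ (n + 1) := by
      calc (2 : ℝ) = 2 ^ 1 := by norm_num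
        _ ≤ 2 ^ (n + 1) := pow_le_pow_right₀ (by norm_num) (by omega)
    have hδ : 0 ≤ (2 ^ (n + 1) - 2) * e := mul_nonneg (by linarith) he
    have hsmall : (1 - (θ⁻¹ - 1)) + (2 ^ (n + 1) - 2) * e ≤ h0 ^ 6 / 65536 := by
      rw [← hedef]
      nlinarith
    have hx1' : h0 ≤ max (U θ S1 x) (V θ S1 x) := by
      refine le_trans ?_ hx1
      have : (0 : ℝ) ≤ n * (h0 ^ 6 / 65536) := by positivity
      linarith
    obtain ⟨S2, h2', hS2, hW2, hx2⟩ := increase hh0 hh1 hθ hθ' hδ hsmall hyp h1 hS1 hW1 hx1'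
    refine ⟨S2, h2', hS2, ?_, ?_⟩
    · refine le_trans (le_of_eq ?_) hW2
      rw [← hedef, pow_succ (2 : ℝ) (n + 1)]
      ring
    · push_cast
      linarith

/-- A constant `θ > 1/2` such that every exact system satisfies
`∑ i, θ ^ (|A i| + |B i|) ≤ 1`. -/
theorem exists_theta : ∃ θ : ℝ, 1 / 2 < θ ∧ θ < 1 ∧
    ∀ {ι X : Type*} [DecidableEq X] (S : Sys ι X), Exact S → W θ S ≤ 1 := by
  set h0 : ℝ := (1 / 2) ^ 24 with hh0def
  have hh0 : 0 < h0 := by positivity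
  have hh1 : h0 ≤ 1 := pow_le_one₀ (by norm_num) (by norm_num)
  have hγ : 0 < h0 ^ 6 / 65536 := by positivity
  have hγ1 : h0 ^ 6 / 65536 ≤ 1 := by
    have : h0 ^ 6 ≤ 1 := pow_le_one₀ hh0.le hh1
    linarith
  obtain ⟨n, hn⟩ := exists_nat_gt (1 / (h0 ^ 6 / 65536))
  have hn' : 1 < n * (h0 ^ 6 / 65536) := by rwa [div_lt_iff₀ hγ] at hn
  set e : ℝ := h0 ^ 6 / 65536 / 2 ^ (n + 4) with he
  have he0 : 0 < e := by positivity
  have h16 : (16 : ℝ) ≤ 2 ^ (n + 4) := by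
    calc (16 : ℝ) = 2 ^ 4 := by norm_num
      _ ≤ 2 ^ (n + 4) := pow_le_pow_right₀ (by norm_num) (by omega)
  have he1 : e ≤ 1 / 16 := by
    rw [he, div_le_div_iff₀ (by positivity) (by norm_num)]
    linarith
  set θ : ℝ := (2 - e)⁻¹ with hθdef
  have h2e : 0 < 2 - e := by linarith
  have hθinv : θ⁻¹ = 2 - e := by rw [hθdef, inv_inv]
  have hθ : 1 / 2 < θ := by
    rw [hθdef, one_div]
    exact inv_strictAnti₀ h2e (by linarith)
  have hθ' : θ ≤ 11 / 20 := by
    rw [hθdef, inv_le_comm₀ h2e (by norm_num)]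
    norm_num
    linarith
  refine ⟨θ, hθ, by linarith, ?_⟩
  intro ι X _
  have hθ0 : 0 < θ := by linarith
  have key : ∀ N, Hyp ι X θ N := by
    intro N
    induction N with
    | zero =>
      intro S _ hS
      exact absurd hS (Nat.not_lt_zero _)
    | succ N ih =>
      intro S h hS
      have hS' : size S ≤ N := Nat.lt_succ_iff.1 hS
      by_contra hW
      push Not at hW
      have hcard : 2 ≤ S.I.card := by
        by_contra hc
        have hc' : S.I.card ≤ 1 := by omega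
        have h1 : W θ S ≤ ∑ _i ∈ S.I, (1 : ℝ) := by
          unfold W om
          exact sum_le_sum fun i _ => pow_le_one₀ hθ0.le (by linarith)
        rw [sum_const, nsmul_eq_mul, mul_one] at h1
        have h2 : (S.I.card : ℝ) ≤ 1 := by exact_mod_cast hc'
        linarith
      obtain ⟨x, hx⟩ := heavy hθ hθ' ih h hS' hW.le hcard
      have hsm : 2 ^ (n + 1) * (1 - (θ⁻¹ - 1)) ≤ h0 ^ 6 / 65536 := by
        rw [hθinv]
        have e1 : (1 : ℝ) - (2 - e - 1) = e := by ring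
        rw [e1, he, mul_div_assoc', div_le_iff₀ (by positivity), pow_add (2 : ℝ) n 1,
          pow_add (2 : ℝ) n 4]
        have : (0 : ℝ) < 2 ^ n := by positivity
        nlinarith
      obtain ⟨S', h1, h2, -, h4⟩ := iterate hh0 hh1 hθ hθ' ih h hS' hW.le
        (hx.trans (le_max_left _ _)) n hsm
      have h5 : max (U θ S' x) (V θ S' x) ≤ θ :=
        max_le (U_le hθ0 ih h1 h2 x) (V_le hθ0 ih h1 h2 x)
      linarith
  intro S h
  exact key (size S + 1) S h (Nat.lt_succ_self _)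

end Pool.Agent.Cross1
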