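import Pool.Agent.Cross1.Basic

/-!
# Announcement inequality, exactness for pairs, random assignments
-/

set_option autoImplicit false
set_option linter.unusedSectionVars false
set_option linter.unusedSimpArgs false

namespace Pool.Agent.Cross1

open Finset

variable {ι X : Type*} [DecidableEq X]

theorem size_res_le (S : Sys ι X) (P Q : Finset X) : size (res S P Q) ≤ size S := by
  have h1 : size (res S P Q) = ∑ j ∈ S.I, if Disjoint (S.B j) P ∧ Disjoint (S.A j) Q then
      (1 + (S.A j \ P).card + (S.B j \ Q).card) else 0 := by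
    unfold size
    rw [← sum_filter]
    rfl
  rw [h1]
  unfold size
  refine sum_le_sum fun j _ => ?_
  split_ifs
  · have a1 : (S.A j \ P).card ≤ (S.A j).card := card_le_card sdiff_subset
    have a2 : (S.B j \ Q).card ≤ (S.B j).card := card_le_card sdiff_subset
    omega
  · exact Nat.zero_le _

/-- The elements `y` of `B i` such that no `A j` contains both `x` and `y`. -/
def Fs (S : Sys ι X) (x : X) (i : ι) : Finset X :=
  (S.B i).filter fun y => ∀ j ∈ S.I, x ∈ S.A j → y ∉ S.A j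

/-- Announcement of an element of the first set. -/
theorem announce {θ : ℝ} (hθ : 0 < θ) (hθ1 : θ ≤ 1) {N : ℕ} (hyp : Hyp ι X θ N) {S : Sys ι X}
    (h : Exact S) (hS : size S ≤ N) (x : X) :
    E θ S (fun i => ia S x i * θ⁻¹ ^ (1 + (Fs S x i).card)) ≤ 1 := by
  classical
  have hinv : 1 ≤ θ⁻¹ := (one_le_inv₀ hθ).2 hθ1
  by_cases hx : ∃ i ∈ S.I, x ∈ S.A i
  swap
  · have : E θ S (fun i => ia S x i * θ⁻¹ ^ (1 + (Fs S x i).card)) = 0 := by
      unfold E
      refine sum_eq_zero fun i hi => ?_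
      have hxi : x ∉ S.A i := fun hh => hx ⟨i, hi, hh⟩
      simp [ia, hxi]
    rw [this]
    exact zero_le_one
  obtain ⟨i0, hi0, hxi0⟩ := hx
  set J := S.I.filter (fun i => x ∈ S.A i) with hJ
  set Q := J.biUnion (Fs S x) with hQ
  have hle : W θ (res S {x} Q) ≤ 1 :=
    res_le_one hyp h hS (x := x) (by simp) ⟨i0, hi0, mem_union_left _ hxi0⟩
  refine le_trans ?_ hle
  have h1 : E θ S (fun i => ia S x i * θ⁻¹ ^ (1 + (Fs S x i).card)) =
      ∑ i ∈ J, om θ S i * θ⁻¹ ^ (1 + (Fs S x i).card) := by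
    unfold E
    rw [hJ, sum_filter]
    refine sum_congr rfl fun i _ => ?_
    by_cases hxi : x ∈ S.A i
    · simp only [ia, hxi, if_true]
      ring
    · simp only [ia, hxi, if_false]
      ring
  have hmem : ∀ i ∈ J, i ∈ (res S {x} Q).I := by
    intro i hi
    rw [hJ, mem_filter] at hi
    simp only [res, mem_filter, disjoint_singleton_right]
    refine ⟨hi.1, disjoint_left.1 (h.1 i hi.1) hi.2, ?_⟩
    rw [disjoint_left]
    intro y hy hyQ
    rw [hQ, mem_biUnion] at hyQ
    obtain ⟨j, hj, hyj⟩ := hyQ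
    rw [Fs, mem_filter] at hyj
    exact hyj.2 i hi.1 hi.2 hy
  rw [h1]
  calc ∑ i ∈ J, om θ S i * θ⁻¹ ^ (1 + (Fs S x i).card)
      ≤ ∑ i ∈ J, om θ (res S {x} Q) i := by
        refine sum_le_sum fun i hi => ?_
        rw [om_res hθ]
        refine mul_le_mul_of_nonneg_left ?_ (om_pos hθ S i).le
        refine pow_le_pow_right₀ hinv ?_
        have hi' : x ∈ S.A i := by
          rw [hJ, mem_filter] at hi
          exact hi.2
        have e1 : (S.A i ∩ {x}).card = 1 := by rw [inter_singleton_of_mem hi', card_singleton]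
        have e2 : (Fs S x i).card ≤ (S.B i ∩ Q).card := by
          apply card_le_card
          intro y hy
          rw [mem_inter]
          refine ⟨(mem_filter.1 hy).1, ?_⟩
          rw [hQ, mem_biUnion]
          exact ⟨i, hi, hy⟩
        omega
    _ ≤ ∑ i ∈ (res S {x} Q).I, om θ (res S {x} Q) i :=
        sum_le_sum_of_subset_of_nonneg hmem fun i _ _ => (om_pos hθ _ i).le
    _ = W θ (res S {x} Q) := rfl

/-- Exactness for pairs. -/
theorem pair_dichotomy {S : Sys ι X} (h : Exact S) {i : ι} (hi : i ∈ S.I) {x y : X}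
    (hx : x ∈ S.A i) (hy : y ∈ S.B i) : y ∈ Fs S x i ∨ x ∈ Fs (dual S) y i := by
  by_contra hcon
  rw [not_or] at hcon
  obtain ⟨h1, h2⟩ := hcon
  have h1' : ∃ j ∈ S.I, x ∈ S.A j ∧ y ∈ S.A j := by
    by_contra hn
    apply h1
    rw [Fs, mem_filter]
    exact ⟨hy, fun j hj hxj hyj => hn ⟨j, hj, hxj, hyj⟩⟩
  have h2' : ∃ l ∈ S.I, y ∈ S.B l ∧ x ∈ S.B l := by
    by_contra hn
    apply h2
    rw [Fs, mem_filter]
    exact ⟨hx, fun j hj hyj hxj => hn ⟨j, hj, hyj, hxj⟩⟩
  obtain ⟨j, hj, hxj, hyj⟩ := h1'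
  obtain ⟨l, hl, hyl, hxl⟩ := h2'
  have hne : j ≠ l := by
    rintro rfl
    exact disjoint_left.1 (h.1 j hj) hxj hxl
  have hc := h.2 j hj l hl hne
  have hxy : x ≠ y := by
    rintro rfl
    exact disjoint_left.1 (h.1 i hi) hx hy
  have : 1 < (S.A j ∩ S.B l).card :=
    one_lt_card.2 ⟨x, mem_inter.2 ⟨hxj, hxl⟩, y, mem_inter.2 ⟨hyj, hyl⟩, hxy⟩
  omega

/-- The weight seen by a random assignment on `H` with bias `p`. -/
noncomputable def Zp (θ p : ℝ) (S : Sys ι X) (H : Finset X) : ℝ :=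
  E θ S fun i => ((1 - p) / θ) ^ (S.A i ∩ H).card * (p / θ) ^ (S.B i ∩ H).card

theorem Zp_insert {θ p : ℝ} (hθ : 0 < θ) {S : Sys ι X} (h : Exact S) {y : X} {H : Finset X}
    (hy : y ∉ H) : Zp θ p S (insert y H) =
      (1 - p) * Zp θ p (res S {y} ∅) H + p * Zp θ p (res S ∅ {y}) H := by
  have e1 : ∀ i, (S.A i \ {y}) ∩ H = S.A i ∩ H := by
    intro i
    ext z
    simp only [mem_inter, mem_sdiff, mem_singleton]
    constructor
    · tauto
    · rintro ⟨a, b⟩
      exact ⟨⟨a, fun hz => hy (hz ▸ b)⟩, b⟩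
  have e2 : ∀ i, (S.B i \ {y}) ∩ H = S.B i ∩ H := by
    intro i
    ext z
    simp only [mem_inter, mem_sdiff, mem_singleton]
    constructor
    · tauto
    · rintro ⟨a, b⟩
      exact ⟨⟨a, fun hz => hy (hz ▸ b)⟩, b⟩
  set f : ι → ℝ := fun i => ((1 - p) / θ) ^ (S.A i ∩ H).card * (p / θ) ^ (S.B i ∩ H).card with hf
  have h1 : Zp θ p (res S {y} ∅) H = E θ (res S {y} ∅) f := by
    unfold Zp
    refine E_congr fun i _ => ?_
    simp only [res, sdiff_empty, e1, hf]
  have h2 : Zp θ p (res S ∅ {y}) H = E θ (res S ∅ {y}) f := by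
    unfold Zp
    refine E_congr fun i _ => ?_
    simp only [res, sdiff_empty, e2, hf]
  rw [h1, h2, E_res_in hθ h, E_res_out hθ h, ← E_mul_left, ← E_mul_left, ← E_add]
  unfold Zp
  refine E_congr fun i hi => ?_
  have hd := h.1 i hi
  by_cases hA : y ∈ S.A i
  · have hB : y ∉ S.B i := disjoint_left.1 hd hA
    have c1 : (S.A i ∩ insert y H).card = (S.A i ∩ H).card + 1 := by
      rw [inter_insert_of_mem hA, card_insert_of_notMem]
      simp [hy]
    have c2 : (S.B i ∩ insert y H).card = (S.B i ∩ H).card := by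
      rw [inter_insert_of_notMem hB]
    rw [c1, c2, pow_succ]
    simp only [ia, ib, hA, hB, if_true, if_false, hf]
    field_simp
    ring
  · by_cases hB : y ∈ S.B i
    · have c1 : (S.B i ∩ insert y H).card = (S.B i ∩ H).card + 1 := by
        rw [inter_insert_of_mem hB, card_insert_of_notMem]
        simp [hy]
      have c2 : (S.A i ∩ insert y H).card = (S.A i ∩ H).card := by
        rw [inter_insert_of_notMem hA]
      rw [c1, c2, pow_succ]
      simp only [ia, ib, hA, hB, if_true, if_false, hf]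
      field_simp
      ring
    · have c1 : (S.B i ∩ insert y H).card = (S.B i ∩ H).card := by
        rw [inter_insert_of_notMem hB]
      have c2 : (S.A i ∩ insert y H).card = (S.A i ∩ H).card := by
        rw [inter_insert_of_notMem hA]
      rw [c1, c2]
      simp only [ia, ib, hA, hB, if_true, if_false, hf]
      ring

theorem Zp_le_one_of_lt {θ p : ℝ} (hθ : 0 < θ) (hp0 : 0 ≤ p) (hp1 : p ≤ 1) {N : ℕ}
    (hyp : Hyp ι X θ N) (H : Finset X) :
    ∀ S : Sys ι X, Exact S → size S < N → Zp θ p S H ≤ 1 := by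
  induction H using Finset.induction_on with
  | empty =>
    intro S h hS
    have : Zp θ p S ∅ = W θ S := by
      unfold Zp
      rw [W_eq_E]
      exact E_congr fun i _ => by simp
    rw [this]
    exact hyp S h hS
  | insert y H hy ih =>
    intro S h hS
    rw [Zp_insert hθ h hy]
    have h1 := ih (res S {y} ∅) (exact_res h _ _) (lt_of_le_of_lt (size_res_le S _ _) hS)
    have h2 := ih (res S ∅ {y}) (exact_res h _ _) (lt_of_le_of_lt (size_res_le S _ _) hS)
    nlinarith

theorem Zp_le_one {θ p : ℝ} (hθ : 0 < θ) (hp0 : 0 ≤ p) (hp1 : p ≤ 1) {N : ℕ}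
    (hyp : Hyp ι X θ N) {S : Sys ι X} (h : Exact S) (hS : size S ≤ N) {H : Finset X} {y : X}
    (hyH : y ∈ H) (ht : Touched S y) : Zp θ p S H ≤ 1 := by
  have hH : H = insert y (H.erase y) := (insert_erase hyH).symm
  rw [hH, Zp_insert hθ h (notMem_erase y H)]
  obtain ⟨i, hi, hyi⟩ := ht
  have s1 : size (res S {y} ∅) < N := lt_of_lt_of_le (size_res_lt hi (x := y) (by simp) hyi) hS
  have s2 : size (res S ∅ {y}) < N := lt_of_lt_of_le (size_res_lt hi (x := y) (by simp) hyi) hS
  have h1 := Zp_le_one_of_lt hθ hp0 hp1 hyp (H.erase y) _ (exact_res h _ _) s1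
  have h2 := Zp_le_one_of_lt hθ hp0 hp1 hyp (H.erase y) _ (exact_res h _ _) s2
  nlinarith

end Pool.Agent.Cross1
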